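import Mathlib
import Pool.Agent.H75.Perc.Prob

set_option autoImplicit false
set_option linter.unusedSectionVars false
open Finset

/-! # Coin models: labels partitioned into blocks, one fair coin per block

`PB E b A` = probability of `A` when the labels `l ∈ E` get the colour of the fair coin of their block
`b l`. Natural percolation = injective `b`, a plate = a block. -/

namespace Pool.Agent.H58.W

open Pool.Agent.H75.Perc (Pr Pr_nonneg Pr_mono Pr_congr Pr_le_one Pr_true Pr_or_le Pr_split Pr_restrict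
  Pr_indep Inc Pr_inc Pr_harris Pr_map Pr_eq)

variable {α β γ : Type*} [DecidableEq α] [DecidableEq β] [DecidableEq γ]

/-- The configuration of the labels given by the set `ω` of open blocks. -/
def up (E : Finset α) (b : α → β) (ω : Finset β) : Finset α := E.filter (fun l => b l ∈ ω)

@[simp] lemma mem_up {E : Finset α} {b : α → β} {ω : Finset β} {l : α} :
    l ∈ up E b ω ↔ l ∈ E ∧ b l ∈ ω := by unfold up; rw [mem_filter]

lemma up_subset (E : Finset α) (b : α → β) (ω : Finset β) : up E b ω ⊆ E := filter_subset _ _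

lemma up_mono {E : Finset α} {b : α → β} {ω ω' : Finset β} (h : ω ⊆ ω') :
    up E b ω ⊆ up E b ω' := fun l hl => by
  rw [mem_up] at hl ⊢; exact ⟨hl.1, h hl.2⟩

/-- Probability of the event `A` in the coin model with the blocks `b`. -/
noncomputable def PB (E : Finset α) (b : α → β) (A : Finset α → Prop) : ℝ :=
  Pr (E.image b) (fun ω => A (up E b ω))

lemma PB_nonneg (E : Finset α) (b : α → β) (A : Finset α → Prop) : 0 ≤ PB E b A := Pr_nonneg _ _

lemma PB_le_one (E : Finset α) (b : α → β) (A : Finset α → Prop) : PB E b A ≤ 1 := Pr_le_one _ _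

lemma PB_mono {E : Finset α} {b : α → β} {A B : Finset α → Prop} (h : ∀ ω, ω ⊆ E → A ω → B ω) :
    PB E b A ≤ PB E b B := Pr_mono fun _ _ h1 => h _ (up_subset _ _ _) h1

lemma PB_congr {E : Finset α} {b : α → β} {A B : Finset α → Prop}
    (h : ∀ ω, ω ⊆ E → (A ω ↔ B ω)) : PB E b A = PB E b B :=
  Pr_congr fun _ _ => h _ (up_subset _ _ _)

@[simp] lemma PB_true (E : Finset α) (b : α → β) : PB E b (fun _ => True) = 1 := Pr_true _

lemma PB_or_le (E : Finset α) (b : α → β) (A B : Finset α → Prop) :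
    PB E b (fun ω => A ω ∨ B ω) ≤ PB E b A + PB E b B := Pr_or_le _ _ _

lemma PB_exists_le {ι : Type*} (E : Finset α) (b : α → β) (s : Finset ι)
    (A : ι → Finset α → Prop) :
    PB E b (fun ω => ∃ i ∈ s, A i ω) ≤ ∑ i ∈ s, PB E b (A i) := by
  classical
  induction s using Finset.induction_on with
  | empty =>
    have : PB E b (fun ω => ∃ i ∈ (∅ : Finset ι), A i ω) = 0 := by
      unfold PB
      rw [Pr_eq]
      rw [filter_false_of_mem]
      · simp
      · intro ω _ h
        obtain ⟨i, hi, _⟩ := h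
        exact absurd hi (notMem_empty i)
    rw [this, sum_empty]
  | insert i s hi ih =>
    rw [sum_insert hi]
    refine le_trans (PB_mono (B := fun ω => A i ω ∨ ∃ j ∈ s, A j ω) ?_) (le_trans (PB_or_le _ _ _ _)
      (by linarith))
    rintro ω _ ⟨j, hj, h⟩
    rcases mem_insert.1 hj with rfl | hj
    · exact Or.inl h
    · exact Or.inr ⟨j, hj, h⟩

/-- Complement. -/
lemma Pr_not (E : Finset α) (A : Finset α → Prop) : Pr E (fun ω => ¬ A ω) = 1 - Pr E A := by
  classical
  rw [Pr_eq, Pr_eq]
  have h : ((E.powerset.filter A).card : ℝ) + ((E.powerset.filter (fun ω => ¬ A ω)).card : ℝ) =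
      2 ^ E.card := by
    have h0 := card_filter_add_card_filter_not (s := E.powerset) A
    rw [card_powerset] at h0
    exact_mod_cast h0
  rw [eq_sub_iff_add_eq, ← add_div, add_comm, h]
  exact div_self (by positivity)

lemma PB_not (E : Finset α) (b : α → β) (A : Finset α → Prop) :
    PB E b (fun ω => ¬ A ω) = 1 - PB E b A := Pr_not _ _

/-- Additivity: `A` is the disjoint union of `A ∧ B` and `A ∧ ¬ B`. -/
lemma Pr_and_add (E : Finset α) (A B : Finset α → Prop) :
    Pr E (fun ω => A ω ∧ B ω) + Pr E (fun ω => A ω ∧ ¬ B ω) = Pr E A := by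
  classical
  rw [Pr_eq, Pr_eq, Pr_eq, ← add_div]
  congr 1
  have h0 := card_filter_add_card_filter_not (s := E.powerset.filter A) B
  rw [filter_filter, filter_filter] at h0
  exact_mod_cast h0

lemma PB_and_add (E : Finset α) (b : α → β) (A B : Finset α → Prop) :
    PB E b (fun ω => A ω ∧ B ω) + PB E b (fun ω => A ω ∧ ¬ B ω) = PB E b A := Pr_and_add _ _ _

/-- **Harris inequality** in a coin model. -/
lemma PB_harris (E : Finset α) (b : α → β) {A B : Finset α → Prop} (hA : Inc A) (hB : Inc B) :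
    PB E b A * PB E b B ≤ PB E b (fun ω => A ω ∧ B ω) :=
  Pr_harris _ (A := fun ω => A (up E b ω)) (B := fun ω => B (up E b ω))
    (fun _ _ h1 h2 => hA _ _ (up_mono h1) h2) (fun _ _ h1 h2 => hB _ _ (up_mono h1) h2)

lemma up_inter {E F : Finset α} (h : F ⊆ E) (b : α → β) (ω : Finset β) :
    up E b ω ∩ F = up F b (ω ∩ F.image b) := by
  ext l
  rw [mem_inter, mem_up, mem_up, mem_inter]
  constructor
  · rintro ⟨⟨_, h2⟩, h3⟩
    exact ⟨h3, h2, mem_image_of_mem _ h3⟩
  · rintro ⟨h1, h2, _⟩
    exact ⟨⟨h h1, h2⟩, h1⟩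

/-- The trace of a coin model on a smaller set of labels. -/
lemma PB_restrict {E F : Finset α} (h : F ⊆ E) (b : α → β) (A : Finset α → Prop) :
    PB E b (fun ω => A (ω ∩ F)) = PB F b A := by
  unfold PB
  rw [← Pr_restrict (image_subset_image h) (fun ω => A (up F b ω))]
  exact Pr_congr fun ω _ => by beta_reduce; rw [up_inter h]

/-- `F1`, `F2` have no common block. -/
def Sep (b : α → β) (F1 F2 : Finset α) : Prop := ∀ l ∈ F1, ∀ l' ∈ F2, b l ≠ b l'

lemma Sep.symm {b : α → β} {F1 F2 : Finset α} (h : Sep b F1 F2) : Sep b F2 F1 :=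
  fun l hl l' hl' h1 => h l' hl' l hl h1.symm

lemma Sep.mono {b : α → β} {F1 F2 G1 G2 : Finset α} (h : Sep b F1 F2) (h1 : G1 ⊆ F1)
    (h2 : G2 ⊆ F2) : Sep b G1 G2 := fun l hl l' hl' => h l (h1 hl) l' (h2 hl')

lemma Sep.disj {b : α → β} {F1 F2 : Finset α} (h : Sep b F1 F2) :
    Disjoint (F1.image b) (F2.image b) := by
  rw [disjoint_left]
  intro x h1 h2
  obtain ⟨l, hl, rfl⟩ := mem_image.1 h1
  obtain ⟨l', hl', h3⟩ := mem_image.1 h2
  exact h l hl l' hl' h3.symm

/-- Independence of the traces on sets without a common block. -/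
lemma PB_indep {E F1 F2 : Finset α} (h1 : F1 ⊆ E) (h2 : F2 ⊆ E) {b : α → β} (hs : Sep b F1 F2)
    (A B : Finset α → Prop) :
    PB E b (fun ω => A (ω ∩ F1) ∧ B (ω ∩ F2)) = PB F1 b A * PB F2 b B := by
  unfold PB
  rw [← Pr_indep (image_subset_image h1) (image_subset_image h2) hs.disj (fun ω => A (up F1 b ω))
    (fun ω => B (up F2 b ω))]
  exact Pr_congr fun ω _ => by beta_reduce; rw [up_inter h1, up_inter h2]

/-- Only the partition into blocks matters. -/
lemma PB_blocks {E : Finset α} {b : α → β} {b' : α → γ}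
    (h : ∀ l ∈ E, ∀ l' ∈ E, b l = b l' ↔ b' l = b' l') (A : Finset α → Prop) :
    PB E b A = PB E b' A := by
  classical
  rcases E.eq_empty_or_nonempty with rfl | hne
  · unfold PB up
    rw [Pr_eq, Pr_eq]
    by_cases hA : A ∅ <;> simp [hA]
  · -- a bijection of the blocks
    have hex : ∀ x ∈ E.image b, ∃ l ∈ E, b l = x := fun x hx => by
      obtain ⟨l, hl, h1⟩ := mem_image.1 hx; exact ⟨l, hl, h1⟩
    obtain ⟨l0, hl0⟩ := hne
    let s : β → α := fun x => if hx : x ∈ E.image b then (hex x hx).choose else l0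
    have hsE : ∀ x, s x ∈ E := by
      intro x
      by_cases hx : x ∈ E.image b
      · simp only [s, hx, dif_pos]; exact (hex x hx).choose_spec.1
      · simp only [s, hx, dif_neg, not_false_iff]; exact hl0
    have hsb : ∀ x ∈ E.image b, b (s x) = x := by
      intro x hx
      simp only [s, hx, dif_pos]; exact (hex x hx).choose_spec.2
    unfold PB
    rw [Pr_eq, Pr_eq]
    have hcard : (E.image b).card = (E.image b').card := by
      apply card_nbij' (fun x => b' (s x)) (fun y => b (if hy : ∃ l ∈ E, b' l = y then hy.choose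
        else l0))
      · intro x _
        exact mem_image_of_mem _ (hsE x)
      · intro y _
        by_cases hy : ∃ l ∈ E, b' l = y
        · simp only [hy, dif_pos]; exact mem_image_of_mem _ hy.choose_spec.1
        · simp only [hy, dif_neg, not_false_iff]; exact mem_image_of_mem _ hl0
      · intro x hx
        have hy : ∃ l ∈ E, b' l = b' (s x) := ⟨_, hsE x, rfl⟩
        simp only [hy, dif_pos]
        rw [(h _ hy.choose_spec.1 _ (hsE x)).2 hy.choose_spec.2, hsb x hx]
      · intro y hy0
        obtain ⟨l, hl, rfl⟩ := mem_image.1 hy0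
        have hy : ∃ l' ∈ E, b' l' = b' l := ⟨_, hl, rfl⟩
        simp only [hy, dif_pos]
        rw [(h _ (hsE _) _ hy.choose_spec.1).1 (hsb _ (mem_image_of_mem _ hy.choose_spec.1))]
        exact hy.choose_spec.2
    rw [hcard]
    congr 1
    norm_cast
    apply card_nbij' (fun ω => (up E b ω).image b') (fun ω => (up E b' ω).image b)
    · intro ω hω
      rw [mem_coe, mem_filter, mem_powerset] at hω ⊢
      refine ⟨image_subset_image (up_subset _ _ _), ?_⟩
      have : up E b' ((up E b ω).image b') = up E b ω := by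
        ext l
        rw [mem_up]
        constructor
        · rintro ⟨h1, h2⟩
          obtain ⟨l', h3, h4⟩ := mem_image.1 h2
          rw [mem_up] at h3 ⊢
          exact ⟨h1, by rw [← (h l' h3.1 l h1).2 h4]; exact h3.2⟩
        · intro h1
          exact ⟨up_subset _ _ _ h1, mem_image_of_mem _ h1⟩
      rw [this]; exact hω.2
    · intro ω hω
      rw [mem_coe, mem_filter, mem_powerset] at hω ⊢
      refine ⟨image_subset_image (up_subset _ _ _), ?_⟩
      have : up E b ((up E b' ω).image b) = up E b' ω := by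
        ext l
        rw [mem_up]
        constructor
        · rintro ⟨h1, h2⟩
          obtain ⟨l', h3, h4⟩ := mem_image.1 h2
          rw [mem_up] at h3 ⊢
          exact ⟨h1, by rw [← (h l' h3.1 l h1).1 h4]; exact h3.2⟩
        · intro h1
          exact ⟨up_subset _ _ _ h1, mem_image_of_mem _ h1⟩
      rw [this]; exact hω.2
    · intro ω hω
      rw [mem_coe, mem_filter, mem_powerset] at hω
      ext x
      rw [mem_image]
      constructor
      · rintro ⟨l, h1, rfl⟩
        rw [mem_up] at h1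
        obtain ⟨l', h3, h4⟩ := mem_image.1 h1.2
        rw [mem_up] at h3
        rw [← (h l' h3.1 l h1.1).2 h4]; exact h3.2
      · intro hx
        obtain ⟨l, hl, rfl⟩ := mem_image.1 (hω.1 hx)
        exact ⟨l, by rw [mem_up]; exact ⟨hl, mem_image_of_mem _ (by rw [mem_up]; exact ⟨hl, hx⟩)⟩, rfl⟩
    · intro ω hω
      rw [mem_coe, mem_filter, mem_powerset] at hω
      ext x
      rw [mem_image]
      constructor
      · rintro ⟨l, h1, rfl⟩
        rw [mem_up] at h1
        obtain ⟨l', h3, h4⟩ := mem_image.1 h1.2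
        rw [mem_up] at h3
        rw [← (h l' h3.1 l h1.1).1 h4]; exact h3.2
      · intro hx
        obtain ⟨l, hl, rfl⟩ := mem_image.1 (hω.1 hx)
        exact ⟨l, by rw [mem_up]; exact ⟨hl, mem_image_of_mem _ (by rw [mem_up]; exact ⟨hl, hx⟩)⟩, rfl⟩

/-- Natural percolation = singleton blocks. -/
lemma PB_id (E : Finset α) (A : Finset α → Prop) : PB E id A = Pr E A := by
  unfold PB
  rw [image_id]
  apply Pr_congr
  intro ω hω
  have : up E id ω = ω := by
    ext l; rw [mem_up]; exact ⟨fun h => h.2, fun h => ⟨hω h, h⟩⟩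
  rw [this]

/-- Natural percolation = injective blocks. -/
lemma PB_inj {E : Finset α} {b : α → β} (h : ∀ l ∈ E, ∀ l' ∈ E, b l = b l' → l = l')
    (A : Finset α → Prop) : PB E b A = Pr E A := by
  rw [← PB_id]
  exact PB_blocks (fun l hl l' hl' => ⟨h l hl l' hl', fun h1 => by have h2 : l = l' := h1; rw [h2]⟩) A

lemma PB_low {E S : Finset α} (b : α → β) {A : Finset α → Prop} (hA : Inc A) :
    PB (E \ S) b A ≤ PB E b A := by
  rw [← PB_restrict sdiff_subset b A]
  exact PB_mono fun ω _ h1 => hA _ _ inter_subset_left h1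

lemma PB_upp {E S : Finset α} (b : α → β) {A : Finset α → Prop} (hA : Inc A) :
    PB E b A ≤ PB (E \ S) b (fun ω => A (ω ∪ S)) := by
  rw [← PB_restrict sdiff_subset b (fun ω => A (ω ∪ S))]
  refine PB_mono fun ω hω h1 => hA _ _ ?_ h1
  intro x hx
  rw [mem_union, mem_inter, mem_sdiff]
  by_cases hxS : x ∈ S
  · exact Or.inr hxS
  · exact Or.inl ⟨hx, hω hx, hxS⟩

/-- **Sandwich**: if the contents of `S` are changed, the probability of an increasing event changes by
at most the probability that `S` is pivotal. -/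
theorem PB_sandwich {E S : Finset α} {b : α → β} {b' : α → γ}
    (h : ∀ l ∈ E \ S, ∀ l' ∈ E \ S, b l = b l' ↔ b' l = b' l') {A : Finset α → Prop} (hA : Inc A) :
    |PB E b A - PB E b' A| ≤ PB (E \ S) b (fun ω => A (ω ∪ S) ∧ ¬ A ω) := by
  have e1 : PB (E \ S) b A = PB (E \ S) b' A := PB_blocks h A
  have e2 : PB (E \ S) b (fun ω => A (ω ∪ S)) = PB (E \ S) b' (fun ω => A (ω ∪ S)) := PB_blocks h _
  have e3 := PB_and_add (E \ S) b (fun ω => A (ω ∪ S)) A
  have e4 : PB (E \ S) b (fun ω => A (ω ∪ S) ∧ A ω) = PB (E \ S) b A :=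
    PB_congr fun ω _ => ⟨fun h1 => h1.2, fun h1 => ⟨hA _ _ subset_union_left h1, h1⟩⟩
  have l1 := PB_low (E := E) (S := S) b hA
  have l2 := PB_low (E := E) (S := S) b' hA
  have u1 := PB_upp (E := E) (S := S) b hA
  have u2 := PB_upp (E := E) (S := S) b' hA
  rw [abs_le]
  constructor <;> linarith

/-- **Telescoping**: models `b 0, .., b n`, the step `j` changes only the contents of `S j`. -/
theorem PB_telescope {E : Finset α} (b : ℕ → α → β) (S : ℕ → Finset α) (n : ℕ)
    (h : ∀ j < n, ∀ l ∈ E \ S j, ∀ l' ∈ E \ S j, b j l = b j l' ↔ b (j + 1) l = b (j + 1) l')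
    {A : Finset α → Prop} (hA : Inc A) :
    |PB E (b 0) A - PB E (b n) A| ≤
      ∑ j ∈ range n, PB (E \ S j) (b j) (fun ω => A (ω ∪ S j) ∧ ¬ A ω) := by
  induction n with
  | zero => simp
  | succ n ih =>
    have h1 := ih fun j hj => h j (by omega)
    have h2 := PB_sandwich (h n (by omega)) hA
    rw [sum_range_succ]
    calc |PB E (b 0) A - PB E (b (n + 1)) A|
        = |(PB E (b 0) A - PB E (b n) A) + (PB E (b n) A - PB E (b (n + 1)) A)| := by ring_nf
      _ ≤ _ := abs_add_le _ _
      _ ≤ _ := by linarith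

end Pool.Agent.H58.W
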