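import Mathlib
import Pool.Agent.H50.W.Chords

set_option autoImplicit false
open Finset

/-! # Natural = plates: the summation over the blocks (module E9 of W-E)

`plV G b N M'` : the plates with `N` plates of `M'` fine cells on every coarse side of `G`.
`EndSt`, `NearSt` : bounds for the end blocks and for the interior chunks. `np` : the theorem
natural = plates. -/

namespace Pool.Agent.H58.W

open Pool.Agent.H75.Perc hiding WL CT hh PB
open Pool.Agent.H75.TwoArm Pool.Agent.Q1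
open Pool.Agent.Q1.M4 (Cell PType)
open Pool.Agent.H33.Q1
open Pool.Agent.H21.FM
open Pool.Agent.H50.W

/-- **The fine plates**: `N` plates of `M'` fine cells on every coarse side, half width `N b - K`. -/
def plV (G : Finset Cell) (b : ℤ) (N M' : ℕ) (c : Cell) : Option (ℤ × ℤ) :=
  let M : ℤ := (N * M' : ℕ)
  let K : ℤ := c.1 / M'
  let Y : ℤ := (c.2 + M / 2) / M
  if (c.1 / M, Y) ∈ G ∧ -(N * b - K) ≤ c.2 - M * Y ∧ c.2 - M * Y < N * b - K then some (K, Y) else none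

lemma fine_eq (D : Chd) : D.fine = plV D.G D.b (D.N1 * D.m) D.M' := by
  funext c
  unfold Chd.fine plV Chd.X Chd.Y Chd.K Chd.hw Chd.M
  simp only [Nat.cast_mul, mul_assoc]

/-- The data of the chords: end blocks of `e` chunks, `e q` chunks on a coarse side. -/
def mkD (G : Finset Cell) (b : ℤ) (hb : ∀ c ∈ G, c.1 < b) (q e m M' : ℕ) (hq : 2 ≤ q) (he : 0 < e)
    (hm : 0 < m) (hM' : 0 < M') : Chd where
  G := G
  N1 := e * q
  m := m
  M' := M'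
  e := e
  b := b
  hm := hm
  hM' := hM'
  he := he
  heN := by rw [mul_comm 2 e]; exact Nat.mul_le_mul_left e hq
  hb := hb

/-- probability that the block `β` is pivotal in the hybrid before it -/
noncomputable def pP (S : Shape) (D : Chd) (h : ℕ) (β : Chd.Bl) : ℝ :=
  PB (EE (rf S D.M D.hM) h) (bk (2 * (h : ℤ)) (D.hy (rf S D.M D.hM).P.Q β))
    (Pv (rf S D.M D.hM) h (D.U (rf S D.M D.hM).P.Q β))

/-- **End blocks**: blocks of relative length `1 / q` are pivotal with small probability. -/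
def EndSt (S : Shape) (G : Finset Cell) (b : ℤ) (hb : ∀ c ∈ G, c.1 < b) : Prop :=
  ∀ ε > (0 : ℝ), ∃ q0 : ℕ, ∀ q ≥ q0, ∀ (hq : 2 ≤ q) (e : ℕ) (he : 0 < e), ∃ m0 : ℕ, ∀ m ≥ m0,
    ∀ hm : 0 < m, ∃ M0 : ℕ, ∀ M' ≥ M0, ∀ hM' : 0 < M', ∃ h0 : ℕ, ∀ h ≥ h0,
      ∀ β ∈ (mkD G b hb q e m M' hq he hm hM').BL ∪ (mkD G b hb q e m M' hq he hm hM').BR,
        pP S (mkD G b hb q e m M' hq he hm hM') h β ≤ ε

/-- **Interior chunks**: end blocks of `L 4 ^ K` chunks. -/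
def NearSt (S : Shape) (G : Finset Cell) (b : ℤ) (hb : ∀ c ∈ G, c.1 < b) : Prop :=
  ∃ (L : ℕ) (C c : ℝ), 0 < L ∧ 0 < c ∧ ∀ (q : ℕ) (hq : 2 ≤ q) (K : ℕ) (he : 0 < L * 4 ^ K), ∀ ε > (0 : ℝ),
    ∃ m0 : ℕ, ∀ m ≥ m0, ∀ hm : 0 < m, ∃ M0 : ℕ, ∀ M' ≥ M0, ∀ hM' : 0 < M', ∃ h0 : ℕ, ∀ h ≥ h0,
      ∀ β ∈ (mkD G b hb q (L * 4 ^ K) m M' hq he hm hM').BI,
        pP S (mkD G b hb q (L * 4 ^ K) m M' hq he hm hM') h β ≤
          C * (4 : ℝ) ^ (-((K : ℝ) * (1 + c))) + ε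

/-- the sum over the blocks -/
theorem total_le (S : Shape) (D : Chd) {h : ℕ} (hh : 0 < h) {x y : ℝ} (hx0 : 0 ≤ x) (hy0 : 0 ≤ y)
    (hx : ∀ β ∈ D.BL ∪ D.BR, pP S D h β ≤ x) (hy : ∀ β ∈ D.BI, pP S D h β ≤ y) :
    |qn S (D.M * h) - qpl (rf S D.M D.hM) h D.fine| ≤
      2 * (D.G.card * x) + D.G.card * D.N1 * y := by
  classical
  refine (D.total S hh).trans ?_
  have hp : ∀ β, 0 ≤ pP S D h β := fun β => PB_nonneg _ _ _
  have h1 : ∑ β ∈ D.B, pP S D h β ≤ ∑ β ∈ D.BL, pP S D h β + ∑ β ∈ D.BI, pP S D h β +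
      ∑ β ∈ D.BR, pP S D h β := by
    unfold Chd.B
    have a1 := sum_union_inter (s₁ := D.BL ∪ D.BI) (s₂ := D.BR) (f := fun β => pP S D h β)
    have a2 := sum_union_inter (s₁ := D.BL) (s₂ := D.BI) (f := fun β => pP S D h β)
    have a3 : 0 ≤ ∑ β ∈ (D.BL ∪ D.BI) ∩ D.BR, pP S D h β := sum_nonneg fun β _ => hp β
    have a4 : 0 ≤ ∑ β ∈ D.BL ∩ D.BI, pP S D h β := sum_nonneg fun β _ => hp β
    linarith
  have b1 : ∑ β ∈ D.BL, pP S D h β ≤ D.G.card * x := by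
    refine (sum_le_card_nsmul _ _ x fun β hβ => hx β (mem_union_left _ hβ)).trans ?_
    rw [nsmul_eq_mul]
    exact mul_le_mul_of_nonneg_right (by exact_mod_cast D.card_BL) hx0
  have b2 : ∑ β ∈ D.BR, pP S D h β ≤ D.G.card * x := by
    refine (sum_le_card_nsmul _ _ x fun β hβ => hx β (mem_union_right _ hβ)).trans ?_
    rw [nsmul_eq_mul]
    exact mul_le_mul_of_nonneg_right (by exact_mod_cast D.card_BR) hx0
  have b3 : ∑ β ∈ D.BI, pP S D h β ≤ D.G.card * D.N1 * y := by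
    refine (sum_le_card_nsmul _ _ y hy).trans ?_
    rw [nsmul_eq_mul]
    exact mul_le_mul_of_nonneg_right (by exact_mod_cast D.card_BI) hy0
  have e : ∑ β ∈ D.B, PB (EE (rf S D.M D.hM) h) (bk (2 * (h : ℤ)) (D.hy (rf S D.M D.hM).P.Q β))
        (Pv (rf S D.M D.hM) h (D.U (rf S D.M D.hM).P.Q β)) = ∑ β ∈ D.B, pP S D h β := rfl
  rw [e]
  linarith

/-- `4 ^ K 4 ^ (- K (1 + c)) → 0` -/
lemma pow_small {c : ℝ} (hc : 0 < c) (A : ℝ) {ε : ℝ} (hε : 0 < ε) :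
    ∃ K : ℕ, A * ((4 : ℝ) ^ K * (4 : ℝ) ^ (-((K : ℝ) * (1 + c)))) ≤ ε := by
  have h1 : ∀ K : ℕ, (4 : ℝ) ^ K * (4 : ℝ) ^ (-((K : ℝ) * (1 + c))) = ((4 : ℝ) ^ (-c)) ^ K := by
    intro K
    rw [← Real.rpow_natCast, ← Real.rpow_natCast, ← Real.rpow_mul (by norm_num),
      ← Real.rpow_add (by norm_num)]
    congr 1
    ring
  have h2 : (4 : ℝ) ^ (-c) < 1 := Real.rpow_lt_one_of_one_lt_of_neg (by norm_num) (by linarith)
  have h3 : 0 ≤ (4 : ℝ) ^ (-c) := by positivity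
  have h4 := (tendsto_pow_atTop_nhds_zero_of_lt_one h3 h2).const_mul A
  rw [mul_zero] at h4
  obtain ⟨K, hK⟩ := (h4.eventually (gt_mem_nhds hε)).exists
  exact ⟨K, by rw [h1]; exact hK.le⟩

/-- **Natural = plates.** -/
theorem np (S : Shape) (G : Finset Cell) (b : ℤ) (hb : ∀ c ∈ G, c.1 < b) (hE : EndSt S G b hb)
    (hN : NearSt S G b hb) {ε : ℝ} (hε : 0 < ε) :
    ∃ N1 : ℕ, 0 < N1 ∧ ∃ m0 : ℕ, ∀ m ≥ m0, ∃ M0 : ℕ, ∀ M' ≥ M0, ∃ h0 : ℕ, ∀ h ≥ h0,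
      ∀ hM : 0 < (N1 * m) * M',
        |qn S (N1 * m * M' * h) - qpl (rf S (N1 * m * M') hM) h (plV G b (N1 * m) M')| ≤ ε := by
  obtain ⟨L, C, c, hL, hc, hN⟩ := hN
  set g : ℝ := (G.card : ℝ) with hg
  have hg0 : 0 ≤ g := by positivity
  obtain ⟨q0, hq0⟩ := hE (ε / (4 * (g + 1))) (by positivity)
  set q := max q0 2 with hqdef
  have hq : 2 ≤ q := le_max_right _ _
  obtain ⟨K, hK⟩ := pow_small hc (g * (L * q) * |C|) (half_pos (half_pos hε))
  have he : 0 < L * 4 ^ K := Nat.mul_pos hL (by positivity)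
  set N1 := L * 4 ^ K * q with hN1
  have hN1p : 0 < N1 := Nat.mul_pos he (by omega)
  have hden : 0 < 4 * (g * N1 + 1) := by positivity
  obtain ⟨m1, hm1⟩ := hq0 q (le_max_left _ _) hq (L * 4 ^ K) he
  obtain ⟨m2, hm2⟩ := hN q hq K he (ε / (4 * (g * N1 + 1))) (by positivity)
  refine ⟨N1, hN1p, max (max m1 m2) 1, fun m hm => ?_⟩
  have hmp : 0 < m := by have := le_trans (le_max_right _ _) hm; omega
  obtain ⟨M1, hM1⟩ := hm1 m (le_trans (le_trans (le_max_left _ _) (le_max_left _ _)) hm) hmp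
  obtain ⟨M2, hM2⟩ := hm2 m (le_trans (le_trans (le_max_right _ _) (le_max_left _ _)) hm) hmp
  refine ⟨max (max M1 M2) 1, fun M' hM' => ?_⟩
  have hMp : 0 < M' := by have := le_trans (le_max_right _ _) hM'; omega
  obtain ⟨h1, hh1⟩ := hM1 M' (le_trans (le_trans (le_max_left _ _) (le_max_left _ _)) hM') hMp
  obtain ⟨h2, hh2⟩ := hM2 M' (le_trans (le_trans (le_max_right _ _) (le_max_left _ _)) hM') hMp
  refine ⟨max (max h1 h2) 1, fun h hh hM => ?_⟩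
  have hhp : 0 < h := by have := le_trans (le_max_right _ _) hh; omega
  set D := mkD G b hb q (L * 4 ^ K) m M' hq he hmp hMp with hD
  have hy0 : 0 ≤ |C| * (4 : ℝ) ^ (-((K : ℝ) * (1 + c))) + ε / (4 * (g * N1 + 1)) := by positivity
  have key := total_le S D hhp (x := ε / (4 * (g + 1)))
    (y := |C| * (4 : ℝ) ^ (-((K : ℝ) * (1 + c))) + ε / (4 * (g * N1 + 1))) (by positivity) hy0
    (hh1 h (le_trans (le_trans (le_max_left _ _) (le_max_left _ _)) hh))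
    (fun β hβ => by
      refine (hh2 h (le_trans (le_trans (le_max_right _ _) (le_max_left _ _)) hh) β hβ).trans ?_
      have : C * (4 : ℝ) ^ (-((K : ℝ) * (1 + c))) ≤ |C| * (4 : ℝ) ^ (-((K : ℝ) * (1 + c))) :=
        mul_le_mul_of_nonneg_right (le_abs_self C) (by positivity)
      linarith)
  have eM : D.M = N1 * m * M' := by
    show L * 4 ^ K * q * (m * M') = N1 * m * M'
    rw [hN1]; ring
  have e1 : |qn S (D.M * h) - qpl (rf S D.M D.hM) h D.fine| =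
      |qn S (N1 * m * M' * h) - qpl (rf S (N1 * m * M') hM) h (plV G b (N1 * m) M')| := by
    rw [fine_eq D]
    have e2 : plV D.G D.b (D.N1 * D.m) D.M' = plV G b (N1 * m) M' := rfl
    rw [e2]
    congr 1
    have gen : ∀ (x y : ℕ) (hx : 0 < x) (hy : 0 < y), x = y → ∀ pl : Cell → Option (ℤ × ℤ),
        qn S (x * h) - qpl (rf S x hx) h pl = qn S (y * h) - qpl (rf S y hy) h pl := by
      rintro x y hx hy rfl pl; rfl
    exact gen _ _ _ _ eM _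
  rw [← e1]
  refine key.trans ?_
  have eN : (D.N1 : ℝ) = L * 4 ^ K * q := by
    show ((L * 4 ^ K * q : ℕ) : ℝ) = _
    push_cast; ring
  have eN' : (N1 : ℝ) = L * 4 ^ K * q := by rw [hN1]; push_cast; ring
  have eG : (D.G.card : ℝ) = g := rfl
  rw [eG, eN]
  have t1 : 2 * (g * (ε / (4 * (g + 1)))) ≤ ε / 2 := by
    rw [show 2 * (g * (ε / (4 * (g + 1)))) = (ε / 2) * (g / (g + 1)) by field_simp; ring]
    have : g / (g + 1) ≤ 1 := by rw [div_le_one (by positivity)]; linarith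
    nlinarith
  have t2 : g * (L * 4 ^ K * q) * (|C| * (4 : ℝ) ^ (-((K : ℝ) * (1 + c)))) ≤ ε / 2 / 2 := by
    refine le_trans (le_of_eq ?_) hK
    ring
  have t3 : g * (L * 4 ^ K * q) * (ε / (4 * (g * N1 + 1))) ≤ ε / 4 := by
    rw [eN']
    have h3 : 0 ≤ g * (L * 4 ^ K * q) := by positivity
    rw [show g * (L * 4 ^ K * q) * (ε / (4 * (g * (L * 4 ^ K * q) + 1))) =
      (ε / 4) * ((g * (L * 4 ^ K * q)) / (g * (L * 4 ^ K * q) + 1)) by field_simp]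
    have : (g * (L * 4 ^ K * q)) / (g * (L * 4 ^ K * q) + 1) ≤ 1 := by
      rw [div_le_one (by positivity)]; linarith
    nlinarith
  have t4 : g * (L * 4 ^ K * q) * (|C| * (4 : ℝ) ^ (-((K : ℝ) * (1 + c))) + ε / (4 * (g * N1 + 1))) =
    g * (L * 4 ^ K * q) * (|C| * (4 : ℝ) ^ (-((K : ℝ) * (1 + c)))) +
      g * (L * 4 ^ K * q) * (ε / (4 * (g * N1 + 1))) := by ring
  rw [t4]
  linarith

end Pool.Agent.H58.W
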