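import Mathlib
import Pool.Agent.H50.W.Near
import Pool.Agent.H58.W.NP

set_option autoImplicit false
open Finset

/-! # From the local bound in the junction world to the interior chunks

`LocB` : the four-arm type event of a chunk of relative length `4 ^ (-K)` in the standard junction world has
probability at most `C1 4 ^ (-K (1 + c1)) + ε`. `nearSt_of_locB` : `LocB → NearSt`. -/

namespace Pool.Agent.H58.W

open Pool.Agent.H75.Perc hiding WL CT hh PB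
open Pool.Agent.H75.TwoArm Pool.Agent.Q1
open Pool.Agent.Q1.M4 (Cell PType)
open Pool.Agent.H33.Q1
open Pool.Agent.H21.FM
open Pool.Agent.H50.W Pool.Agent.H41.W Pool.Agent.H6.W

/-- probability of `A4` for the chunk of `m` plates of length `M`, half thickness `τ` at the tip, in the
junction world, box `[-a, a) × [-r, r)` -/
noncomputable def aJ (a r M τ m h : ℕ) : ℝ :=
  PB (TL (RC (-a) a (-r) r) (2 * (h : ℤ))) (bk (2 * (h : ℤ)) (chn 0 M τ))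
    (A4 (TL (RC (-a) a (-r) r) (2 * (h : ℤ))) (TL (Chd.pch M m τ) (2 * (h : ℤ))))

/-- **The local bound** (output of E6). -/
def LocB : Prop :=
  ∃ (c1 C1 : ℝ) (L : ℕ), 0 < c1 ∧ 0 < L ∧ ∀ (K : ℕ) (ε : ℝ), 0 < ε → ∃ δ > (0 : ℝ),
    ∀ r M τ m : ℕ, 0 < M → 0 < τ → (M : ℝ) ≤ δ * r → 64 * ((τ : ℝ) + r / (δ * M)) ≤ M →
      m * M * 4 ^ K = r → ∃ h0 : ℕ, ∀ h : ℕ, h0 ≤ h →
        aJ (L * r) r M τ m h ≤ C1 * (4 : ℝ) ^ (-((K : ℝ) * (1 + c1))) + ε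

/-- a common threshold for finitely many parameters -/
lemma common_h0 (T : ℕ) {P : ℕ → ℕ → Prop} (hP : ∀ τ ≤ T, 0 < τ → ∃ h0 : ℕ, ∀ h, h0 ≤ h → P τ h) :
    ∃ h0 : ℕ, ∀ h, h0 ≤ h → ∀ τ ≤ T, 0 < τ → P τ h := by
  induction T with
  | zero => exact ⟨0, fun h _ τ hτ h0 => absurd h0 (by omega)⟩
  | succ T ih =>
    obtain ⟨h1, hh1⟩ := ih fun τ hτ => hP τ (by omega)
    obtain ⟨h2, hh2⟩ := hP (T + 1) le_rfl (by omega)
    refine ⟨max h1 h2, fun h hh τ hτ h0 => ?_⟩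
    rcases Nat.lt_or_ge τ (T + 1) with h3 | h3
    · exact hh1 h (le_trans (le_max_left _ _) hh) τ (by omega) h0
    · have h4 : τ = T + 1 := by omega
      rw [h4]
      exact hh2 h (le_trans (le_max_right _ _) hh)

theorem nearSt_of_locB (hL : LocB) (S : Shape) (G : Finset Cell) (b : ℤ) (hb : ∀ c ∈ G, c.1 < b)
    (hG : ∀ c ∈ G, c ∈ S.P.Q ∧ (c.1, c.2 - 1) ∈ S.P.Q) : NearSt S G b hb := by
  obtain ⟨c1, C1, L, hc1, hL0, hloc⟩ := hL
  refine ⟨L, C1, c1, hL0, hc1, fun q hq K he ε hε => ?_⟩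
  obtain ⟨δ, hδ, hδ'⟩ := hloc K ε hε
  obtain ⟨a0, ha0⟩ : ∃ a0 : ℤ, ∀ c ∈ G, a0 ≤ c.1 := by
    obtain ⟨a0, h⟩ := (G.image Prod.fst).bddBelow
    exact ⟨a0, fun c hc => h (mem_coe.2 (mem_image_of_mem _ hc))⟩
  refine ⟨⌈1 / δ⌉₊, fun m hm hmp => ?_⟩
  have hmδ : 1 ≤ δ * m := by
    have h1 : 1 / δ ≤ m := (Nat.le_ceil _).trans (by exact_mod_cast hm)
    rw [div_le_iff₀ hδ] at h1
    linarith
  set T : ℕ := (((L * 4 ^ K * q : ℕ) : ℤ) * m * (b - a0)).toNat with hT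
  refine ⟨⌈64 * ((T : ℝ) + m * 4 ^ K / δ)⌉₊ + T + m, fun M' hM' hMp => ?_⟩
  set r : ℕ := m * M' * 4 ^ K with hr
  have hM'1 : 64 * ((T : ℝ) + m * 4 ^ K / δ) ≤ M' := by
    have h1 : (⌈64 * ((T : ℝ) + m * 4 ^ K / δ)⌉₊ : ℝ) ≤ M' := by
      have : ⌈64 * ((T : ℝ) + m * 4 ^ K / δ)⌉₊ ≤ M' := by omega
      exact_mod_cast this
    exact (Nat.le_ceil _).trans h1
  have hM0 : (0 : ℝ) < M' := by exact_mod_cast hMp
  have hm0 : (0 : ℝ) < m := by exact_mod_cast hmp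
  have h4 : (1 : ℝ) ≤ 4 ^ K := one_le_pow₀ (by norm_num)
  have hrR : (r : ℝ) = m * M' * 4 ^ K := by rw [hr]; push_cast; ring
  have hrM : (M' : ℝ) ≤ δ * r := by
    rw [hrR]
    have h5 : 1 ≤ δ * m * 4 ^ K := by nlinarith
    nlinarith
  have hcom : ∃ h0 : ℕ, ∀ h, h0 ≤ h → ∀ τ ≤ T, 0 < τ →
      aJ (L * r) r M' τ m h ≤ C1 * (4 : ℝ) ^ (-((K : ℝ) * (1 + c1))) + ε := by
    refine common_h0 T fun τ hτ h0 => ?_
    refine hδ' r M' τ m hMp h0 hrM ?_ rfl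
    refine le_trans ?_ hM'1
    have h5 : (τ : ℝ) ≤ T := by exact_mod_cast hτ
    have h6 : (r : ℝ) / (δ * M') = m * 4 ^ K / δ := by
      rw [hrR]; field_simp
    rw [h6]
    linarith
  obtain ⟨h0, hh0⟩ := hcom
  refine ⟨max h0 1, fun h hh β hβ => ?_⟩
  have hh1 : 0 < h := by have := le_trans (le_max_right _ _) hh; omega
  set D := mkD G b hb q (L * 4 ^ K) m M' hq he hmp hMp with hD
  obtain ⟨i, y, hi, rfl⟩ := D.mem_BI.1 hβ
  have hIn : D.In S := hG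
  have htau : D.tau i ≤ T := by
    have h1 := D.tau_le hi (a0 := a0) ha0
    have h2 : ((D.N1 : ℤ) * D.m * (D.b - a0)) = ((L * 4 ^ K * q : ℕ) : ℤ) * m * (b - a0) := rfl
    rw [h2] at h1
    rw [hT]
    omega
  have htau0 : 0 < D.tau i := by
    have h1 := D.tau_eq hi
    have h2 := D.ta_nonneg hi
    omega
  have hl : D.l = m * M' := rfl
  have hDM : D.M = L * 4 ^ K * q * (m * M') := rfl
  have h4n : 1 ≤ 4 ^ K := Nat.one_le_pow _ _ (by norm_num)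
  have hrl : m * M' ≤ r := by
    rw [hr]; exact Nat.le_mul_of_pos_right _ (by omega)
  have hkey := D.near_chunk hIn hi (a := L * r) (r := r) (h := h) ?_ ?_ ?_ ?_ hh1
  · exact hkey.trans (hh0 h (le_trans (le_max_left _ _) hh) (D.tau i) htau htau0)
  · show L * r ≤ L * 4 ^ K * (m * M')
    rw [hr]
    apply le_of_eq; ring
  · rw [hl]
    exact hrl.trans (Nat.le_mul_of_pos_left _ hL0)
  · rw [hDM, hr]
    calc 2 * (m * M' * 4 ^ K) ≤ q * (m * M' * 4 ^ K) := Nat.mul_le_mul_right _ hq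
      _ ≤ L * (q * (m * M' * 4 ^ K)) := Nat.le_mul_of_pos_left _ hL0
      _ = L * 4 ^ K * q * (m * M') := by ring
  · have h5 : T + m ≤ M' := by omega
    have h6 : M' ≤ m * M' := Nat.le_mul_of_pos_left _ hmp
    show D.tau i + m ≤ r
    omega

end Pool.Agent.H58.W
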