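import Mathlib
import Pool.Agent.H58.W.Coin
import Pool.Agent.Q1.ExC

set_option autoImplicit false
set_option linter.unusedSectionVars false
open Finset

/-! # Expectations in coin models

`EB E b F` : expectation of the complex function `F` of the configuration in the coin model with the
blocks `b`. `EB_telescope` : the expectations in a sequence of coin models which differ only in the
contents of `S j` differ by at most the sum of `4 K` times the probabilities of the events off which `F`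
does not depend on the contents of `S j`. -/

namespace Pool.Agent.H58.W

open Pool.Agent.H75.Perc (Pr Pr_eq)
open Pool.Agent.Q1 (Ec Ec_congr Ec_sub Ec_add Ec_sum Ec_smul Ec_half Ec_half_norm Ec_const Ec_split
  Ec_union)

variable {α β γ : Type*} [DecidableEq α] [DecidableEq β] [DecidableEq γ]

/-- Expectation of `F` in the coin model with the blocks `b`. -/
noncomputable def EB (E : Finset α) (b : α → β) (F : Finset α → ℂ) : ℂ :=
  Ec (fun _ => (1 / 2 : ℂ)) (E.image b) (fun s => F (up E b s))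

lemma EB_congr {E : Finset α} {b : α → β} {F G : Finset α → ℂ} (h : ∀ ω, ω ⊆ E → F ω = G ω) :
    EB E b F = EB E b G := Ec_congr fun _ _ => h _ (up_subset _ _ _)

lemma EB_sub (E : Finset α) (b : α → β) (F G : Finset α → ℂ) :
    EB E b (fun ω => F ω - G ω) = EB E b F - EB E b G := Ec_sub _ _ _ _

lemma EB_add (E : Finset α) (b : α → β) (F G : Finset α → ℂ) :
    EB E b (fun ω => F ω + G ω) = EB E b F + EB E b G := Ec_add _ _ _ _

lemma EB_smul (E : Finset α) (b : α → β) (c : ℂ) (F : Finset α → ℂ) :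
    EB E b (fun ω => c * F ω) = c * EB E b F := Ec_smul _ _ _ _

lemma EB_sum {ι : Type*} (E : Finset α) (b : α → β) (s : Finset ι) (F : ι → Finset α → ℂ) :
    EB E b (fun ω => ∑ i ∈ s, F i ω) = ∑ i ∈ s, EB E b (F i) := Ec_sum _ _ _ _

@[simp] lemma EB_const (E : Finset α) (b : α → β) (c : ℂ) : EB E b (fun _ => c) = c := Ec_const _ _ _

/-- expectation = sum over the configurations -/
lemma EB_eq (E : Finset α) (b : α → β) (F : Finset α → ℂ) :
    EB E b F = ∑ ω ∈ E.powerset, ((PB E b (fun ω' => ω' = ω) : ℝ) : ℂ) * F ω := by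
  classical
  unfold EB
  rw [Ec_half, mul_sum, ← sum_fiberwise_of_maps_to (s := (E.image b).powerset) (t := E.powerset)
    (g := fun s => up E b s) (fun s _ => mem_powerset.2 (up_subset _ _ _))]
  refine sum_congr rfl fun ω _ => ?_
  unfold PB
  rw [Pr_eq]
  have e1 : ∀ s ∈ (E.image b).powerset.filter (fun s => up E b s = ω),
      (1 / 2 : ℂ) ^ (E.image b).card * F (up E b s) = (1 / 2 : ℂ) ^ (E.image b).card * F ω := by
    intro s hs
    rw [(mem_filter.1 hs).2]
  rw [sum_congr rfl e1, sum_const, nsmul_eq_mul]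
  push_cast
  rw [one_div, inv_pow]
  field_simp

/-- Only the partition into blocks matters. -/
lemma EB_blocks {E : Finset α} {b : α → β} {b' : α → γ}
    (h : ∀ l ∈ E, ∀ l' ∈ E, b l = b l' ↔ b' l = b' l') (F : Finset α → ℂ) :
    EB E b F = EB E b' F := by
  rw [EB_eq, EB_eq]
  exact sum_congr rfl fun ω _ => by rw [PB_blocks h]

/-- norm of an expectation -/
lemma EB_norm {E : Finset α} {b : α → β} {F : Finset α → ℂ} {K : ℝ} {A : Finset α → Prop}
    (hK : ∀ ω, ω ⊆ E → ‖F ω‖ ≤ K) (hA : ∀ ω, ω ⊆ E → ¬ A ω → F ω = 0) :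
    ‖EB E b F‖ ≤ K * PB E b A := by
  classical
  unfold EB
  rw [Ec_half, norm_mul, norm_pow]
  unfold PB
  rw [Pr_eq]
  have h0 : ‖(1 / 2 : ℂ)‖ = 1 / 2 := by norm_num
  rw [h0]
  have hK0 : 0 ≤ K := (norm_nonneg _).trans (hK ∅ (empty_subset _))
  have h1 : ‖∑ s ∈ (E.image b).powerset, F (up E b s)‖ ≤
      K * ((E.image b).powerset.filter (fun s => A (up E b s))).card := by
    refine (norm_sum_le _ _).trans ?_
    have h2 : ∀ s ∈ (E.image b).powerset, ‖F (up E b s)‖ ≤ if A (up E b s) then K else 0 := by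
      intro s _
      by_cases h3 : A (up E b s)
      · rw [if_pos h3]; exact hK _ (up_subset _ _ _)
      · rw [if_neg h3, hA _ (up_subset _ _ _) h3, norm_zero]
    refine (sum_le_sum h2).trans ?_
    rw [← sum_filter, sum_const, nsmul_eq_mul, mul_comm]
  have h2 : (0 : ℝ) ≤ (1 / 2) ^ (E.image b).card := by positivity
  refine (mul_le_mul_of_nonneg_left h1 h2).trans (le_of_eq ?_)
  rw [one_div, inv_pow]
  field_simp

lemma EB_norm_le {E : Finset α} {b : α → β} {F : Finset α → ℂ} {K : ℝ}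
    (hK : ∀ ω, ω ⊆ E → ‖F ω‖ ≤ K) : ‖EB E b F‖ ≤ K := by
  have := EB_norm (b := b) (A := fun _ => True) hK (fun _ _ h => absurd trivial h)
  rwa [PB_true, mul_one] at this

/-- restriction to a part of the labels -/
lemma EB_restrict {E F : Finset α} (h : F ⊆ E) (b : α → β) (G : Finset α → ℂ) :
    EB E b (fun ω => G (ω ∩ F)) = EB F b G := by
  unfold EB
  have e1 : ∀ s : Finset β, G (up E b s ∩ F) = G (up F b (s ∩ F.image b)) := fun s => by
    rw [up_inter h]
  simp only [e1]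
  rw [Ec_split _ (image_subset_image (f := b) h)]
  refine Ec_congr fun s1 hs1 => ?_
  have e2 : ∀ s2, s2 ⊆ E.image b \ F.image b → (fun ω2 => G (up F b ((s1 ∪ ω2) ∩ F.image b))) s2 =
      (fun _ => G (up F b s1)) s2 := by
    intro s2 hs2
    simp only
    congr 2
    ext x
    simp only [mem_inter, mem_union]
    constructor
    · rintro ⟨h1 | h1, h2⟩
      · exact h1
      · exact absurd h2 (mem_sdiff.1 (hs2 h1)).2
    · intro h1
      exact ⟨Or.inl h1, hs1 h1⟩
  rw [Ec_congr e2, Ec_const]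

/-- independent parts -/
lemma EB_split {E E1 : Finset α} (h : E1 ⊆ E) {b : α → β} (hs : Sep b E1 (E \ E1))
    (F : Finset α → ℂ) :
    EB E b F = EB E1 b (fun ω1 => EB (E \ E1) b (fun ω2 => F (ω1 ∪ ω2))) := by
  unfold EB
  have e1 : E.image b = E1.image b ∪ (E \ E1).image b := by
    rw [← image_union, union_sdiff_of_subset h]
  rw [e1, Ec_union _ hs.disj]
  refine Ec_congr fun s1 hs1 => Ec_congr fun s2 hs2 => ?_
  congr 1
  ext l
  simp only [mem_up, mem_union]
  constructor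
  · rintro ⟨h1, h2⟩
    by_cases h3 : l ∈ E1
    · left
      refine ⟨h3, ?_⟩
      rcases h2 with h2 | h2
      · exact h2
      · exact absurd (hs2 h2) (disjoint_left.1 hs.disj (mem_image_of_mem _ h3))
    · right
      refine ⟨mem_sdiff.2 ⟨h1, h3⟩, ?_⟩
      rcases h2 with h2 | h2
      · exact absurd (mem_image_of_mem _ (mem_sdiff.2 ⟨h1, h3⟩))
          (disjoint_left.1 hs.disj (hs1 h2))
      · exact h2
  · rintro (⟨h1, h2⟩ | ⟨h1, h2⟩)
    · exact ⟨h h1, Or.inl h2⟩
    · exact ⟨(mem_sdiff.1 h1).1, Or.inr h2⟩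

/-- Singleton blocks = independent labels. -/
lemma EB_inj {E : Finset α} {b : α → β} (h : ∀ l ∈ E, ∀ l' ∈ E, b l = b l' → l = l')
    (F : Finset α → ℂ) : EB E b F = Ec (fun _ => (1 / 2 : ℂ)) E F := by
  have e1 : EB E b F = EB E id F :=
    EB_blocks (fun l hl l' hl' => ⟨h l hl l' hl', fun h1 => by have h2 : l = l' := h1; rw [h2]⟩) F
  rw [e1]
  unfold EB
  rw [image_id]
  refine Ec_congr fun ω hω => ?_
  congr 1
  ext l
  rw [mem_up]
  exact ⟨fun h1 => h1.2, fun h1 => ⟨hω h1, h1⟩⟩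

lemma EB_change_aux {E S : Finset α} {b : α → β} {F : Finset α → ℂ} {K : ℝ}
    {A : Finset α → Prop} (hK : ∀ ω, ω ⊆ E → ‖F ω‖ ≤ K)
    (hF : ∀ ω, ω ⊆ E → ¬ A (ω \ S) → F ω = F (ω \ S)) :
    ‖EB E b F - EB (E \ S) b F‖ ≤ 2 * K * PB (E \ S) b A := by
  have es : ∀ ω, ω ⊆ E → ω ∩ (E \ S) = ω \ S := by
    intro ω hω
    ext x
    rw [mem_inter, mem_sdiff, mem_sdiff]
    exact ⟨fun h1 => ⟨h1.1, h1.2.2⟩, fun h1 => ⟨h1.1, hω h1.1, h1.2⟩⟩
  rw [← EB_restrict (sdiff_subset : E \ S ⊆ E) b F, ← EB_sub,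
    ← PB_restrict (sdiff_subset : E \ S ⊆ E) b A]
  refine EB_norm (fun ω hω => ?_) (fun ω hω hA => ?_)
  · refine (norm_sub_le _ _).trans ?_
    have h1 := hK ω hω
    have h2 := hK (ω ∩ (E \ S)) (inter_subset_left.trans hω)
    linarith
  · rw [es ω hω] at hA ⊢
    rw [hF ω hω hA, sub_self]

/-- **One step**: the models `b`, `b'` differ only in the contents of `S`; off the event `A` the
function `F` does not depend on the contents of `S`. -/
theorem EB_change {E S : Finset α} {b : α → β} {b' : α → γ}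
    (h : ∀ l ∈ E \ S, ∀ l' ∈ E \ S, b l = b l' ↔ b' l = b' l') {F : Finset α → ℂ} {K : ℝ}
    {A : Finset α → Prop} (hK : ∀ ω, ω ⊆ E → ‖F ω‖ ≤ K)
    (hF : ∀ ω, ω ⊆ E → ¬ A (ω \ S) → F ω = F (ω \ S)) :
    ‖EB E b F - EB E b' F‖ ≤ 4 * K * PB (E \ S) b A := by
  have k1 := EB_change_aux (b := b) hK hF
  have k2 := EB_change_aux (b := b') hK hF
  have e1 : EB (E \ S) b F = EB (E \ S) b' F := EB_blocks h F
  have e2 : PB (E \ S) b A = PB (E \ S) b' A := PB_blocks h A
  rw [← e2, ← e1] at k2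
  calc ‖EB E b F - EB E b' F‖ = ‖(EB E b F - EB (E \ S) b F) - (EB E b' F - EB (E \ S) b F)‖ := by
        congr 1; ring
    _ ≤ _ := norm_sub_le _ _
    _ ≤ _ := by linarith

/-- **Telescoping.** -/
theorem EB_telescope {E : Finset α} (b : ℕ → α → β) (S : ℕ → Finset α) (n : ℕ)
    (h : ∀ j < n, ∀ l ∈ E \ S j, ∀ l' ∈ E \ S j, b j l = b j l' ↔ b (j + 1) l = b (j + 1) l')
    {F : Finset α → ℂ} {K : ℝ} (A : ℕ → Finset α → Prop) (hK : ∀ ω, ω ⊆ E → ‖F ω‖ ≤ K)
    (hF : ∀ j < n, ∀ ω, ω ⊆ E → ¬ A j (ω \ S j) → F ω = F (ω \ S j)) :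
    ‖EB E (b 0) F - EB E (b n) F‖ ≤ 4 * K * ∑ j ∈ range n, PB (E \ S j) (b j) (A j) := by
  induction n with
  | zero => simp
  | succ n ih =>
    have h1 := ih (fun j hj => h j (by omega)) (fun j hj => hF j (by omega))
    have h2 := EB_change (h n (by omega)) hK (hF n (by omega))
    rw [sum_range_succ, mul_add]
    calc ‖EB E (b 0) F - EB E (b (n + 1)) F‖
        = ‖(EB E (b 0) F - EB E (b n) F) + (EB E (b n) F - EB E (b (n + 1)) F)‖ := by ring_nf
      _ ≤ _ := norm_add_le _ _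
      _ ≤ _ := by linarith

end Pool.Agent.H58.W
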