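import Mathlib
import Pool.Agent.H41.W.Loc
import Pool.Agent.Q1.M6c.Toggle
import Pool.Agent.Q1.M6c.BoxTop

set_option autoImplicit false
open Finset

/-! # The contents of a set of labels without four arms do not change the path outside

`strand` : `B` is a set of labels whose outer faces are joined off `B`, `U ⊆ B ⊆ X.E`. If the contents
of `U` do not change the boundary partition of `B` (`¬ A4 B U ω`), then the increments of the plane
environment `X` at all corners which touch a label outside `B` do not depend on the contents of `U`. -/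

namespace Pool.Agent.H58.W

open Pool.Agent.H75.Perc
open Pool.Agent.H75.TwoArm Pool.Agent.H75.Four Pool.Agent.H69.Q1 Pool.Agent.Q1 Pool.Agent.Q1.M6c
open Pool.Agent.H75.TwoArm.StrandAux hiding vx_nxC
open Pool.Agent.H41.W

/-- the face `f` is next to a label outside `B` -/
def NiF (B : Finset (ℤ × ℤ)) (f : ℤ × ℤ) : Prop := ∃ g, IsUnit4 (g - f) ∧ f + g - (1, 1) ∉ B

/-- the outer faces of `B` are joined off `B` -/
def SC (B : Finset (ℤ × ℤ)) : Prop := ∀ f g, NiF B f → NiF B g → DCo B f g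

lemma ends1 {e : ℤ × ℤ} (he : (e.1 + e.2) % 2 = 1) :
    (IsUnit4 (vx (in2 e) - vx (in1 e)) ∧ vx (in1 e) + vx (in2 e) = e) ∧
      (IsUnit4 (fi (in2 e) - fi (in1 e)) ∧ fi (in1 e) + fi (in2 e) - (1, 1) = e) := by
  obtain ⟨a, b⟩ := e
  simp only at he
  unfold in1 in2 vx fi IsUnit4
  by_cases h : a % 2 = 1
  · simp only [h, if_true]
    simp only [Prod.ext_iff, Prod.fst_sub, Prod.snd_sub, Prod.fst_add, Prod.snd_add]
    omega
  · simp only [h, if_false]
    simp only [Prod.ext_iff, Prod.fst_sub, Prod.snd_sub, Prod.fst_add, Prod.snd_add]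
    omega

lemma same_ends {u v u' v' : ℤ × ℤ} (h : IsUnit4 (v - u)) (h' : IsUnit4 (v' - u'))
    (he : u + v = u' + v') : (u = u' ∧ v = v') ∨ (u = v' ∧ v = u') := by
  rcases ends_of_add h he with ⟨h1, h2⟩ | ⟨h1, h2⟩ <;>
    rcases ends_of_add h' rfl with ⟨h3, h4⟩ | ⟨h3, h4⟩
  · left; rw [h1, h2, ← h3, ← h4]; exact ⟨rfl, rfl⟩
  · right; rw [h1, h2]; exact ⟨h4.symm, h3.symm⟩
  · right; rw [h1, h2]; exact ⟨h4.symm, h3.symm⟩
  · left; rw [h1, h2]; exact ⟨h3.symm, h4.symm⟩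

/-- insertion of a label -/
lemma co_insert {σ : Finset (ℤ × ℤ)} {e u v x y : ℤ × ℤ} (hu : IsUnit4 (v - u)) (he : u + v = e)
    (h : Co (insert e σ) x y) : Co σ x y ∨ (Co σ x u ∧ Co σ v y) ∨ (Co σ x v ∧ Co σ u y) := by
  induction h with
  | refl => exact Or.inl (Co.refl _ _)
  | @tail b c _ hbc ih =>
    obtain ⟨h1, h2⟩ := hbc
    rcases mem_insert.1 h2 with h2 | h2
    · rcases same_ends h1 hu (h2.trans he.symm) with ⟨rfl, rfl⟩ | ⟨rfl, rfl⟩
      · rcases ih with h3 | ⟨h3, h4⟩ | ⟨h3, h4⟩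
        · exact Or.inr (Or.inl ⟨h3, Co.refl _ _⟩)
        · exact Or.inr (Or.inl ⟨h3, Co.refl _ _⟩)
        · exact Or.inl h3
      · rcases ih with h3 | ⟨h3, h4⟩ | ⟨h3, h4⟩
        · exact Or.inr (Or.inr ⟨h3, Co.refl _ _⟩)
        · exact Or.inl h3
        · exact Or.inr (Or.inr ⟨h3, Co.refl _ _⟩)
    · have h3 : Co σ b c := Relation.ReflTransGen.single ⟨h1, h2⟩
      rcases ih with h4 | ⟨h4, h5⟩ | ⟨h4, h5⟩
      · exact Or.inl (h4.trans h3)
      · exact Or.inr (Or.inl ⟨h4, h5.trans h3⟩)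
      · exact Or.inr (Or.inr ⟨h4, h5.trans h3⟩)

lemma ad_du {F w : Finset (ℤ × ℤ)} {f g : ℤ × ℤ} (h : Ad (du F w) f g) :
    IsUnit4 (g - f) ∧ f + g - (1, 1) ∈ F ∧ f + g - (1, 1) ∉ w := by
  obtain ⟨hu, hd⟩ := h
  unfold du at hd
  rw [mem_map] at hd
  obtain ⟨e, he, he'⟩ := hd
  have he2 : f + g - (1, 1) = e := by
    rw [← he']
    show ((e.1 + 1, e.2 + 1) : ℤ × ℤ) - (1, 1) = e
    refine Prod.ext ?_ ?_ <;> simp
  rw [he2]
  exact ⟨hu, (mem_sdiff.1 he).1, (mem_sdiff.1 he).2⟩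

/-- deletion of a closed label from the dual configuration -/
lemma dco_insert {σ : Finset (ℤ × ℤ)} {e u v x y : ℤ × ℤ} (hu : IsUnit4 (v - u))
    (he : u + v - (1, 1) = e) (h : DCo σ x y) :
    DCo (insert e σ) x y ∨ (DCo (insert e σ) x u ∧ DCo (insert e σ) v y) ∨
      (DCo (insert e σ) x v ∧ DCo (insert e σ) u y) := by
  obtain ⟨F, hF⟩ := h
  induction hF with
  | refl => exact Or.inl (DCo.refl _ _)
  | @tail b c _ hbc ih =>
    obtain ⟨h1, -, h2⟩ := ad_du hbc
    by_cases h2' : b + c - (1, 1) = e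
    · have h2'' : b + c = u + v := by rw [← he] at h2'; exact sub_left_injective h2'
      rcases same_ends h1 hu h2'' with ⟨rfl, rfl⟩ | ⟨rfl, rfl⟩
      · rcases ih with h3 | ⟨h3, h4⟩ | ⟨h3, h4⟩
        · exact Or.inr (Or.inl ⟨h3, DCo.refl _ _⟩)
        · exact Or.inr (Or.inl ⟨h3, DCo.refl _ _⟩)
        · exact Or.inl h3
      · rcases ih with h3 | ⟨h3, h4⟩ | ⟨h3, h4⟩
        · exact Or.inr (Or.inr ⟨h3, DCo.refl _ _⟩)
        · exact Or.inl h3
        · exact Or.inr (Or.inr ⟨h3, DCo.refl _ _⟩)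
    · have h3 : DCo (insert e σ) b c := DCo.step h1 (by
        rw [mem_insert, not_or]; exact ⟨h2', h2⟩)
      rcases ih with h4 | ⟨h4, h5⟩ | ⟨h4, h5⟩
      · exact Or.inl (h4.trans h3)
      · exact Or.inr (Or.inl ⟨h4, h5.trans h3⟩)
      · exact Or.inr (Or.inr ⟨h4, h5.trans h3⟩)

/-- two corners are on the same loop iff their vertices and their faces are connected -/
lemma loop_iff {σ : Finset (ℤ × ℤ)} {c c' : ℤ × ℤ} :
    InOrb (nx σ) c c' ↔ Co σ (vx c) (vx c') ∧ DCo σ (fi c) (fi c') := by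
  constructor
  · rintro ⟨i, rfl⟩
    refine ⟨co_orb σ c i, ?_⟩
    induction i with
    | zero => exact DCo.refl _ _
    | succ i ih =>
      rw [Function.iterate_succ_apply']
      generalize (nx σ)^[i] c = z at ih
      refine ih.trans ?_
      unfold nx
      by_cases h : lab z ∈ σ
      · rw [if_pos h, fi_nxO]; exact DCo.refl _ _
      · rw [if_neg h]; exact dco_nxC h
  · rintro ⟨h1, F, h2⟩
    exact inOrb_of_co σ h1 h2

/-- a label which joins two clusters does not separate its faces -/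
lemma dual_a {σ : Finset (ℤ × ℤ)} {e : ℤ × ℤ} (he : (e.1 + e.2) % 2 = 1) (hn : e ∉ σ)
    (h : ¬ Co σ (vx (in1 e)) (vx (in2 e))) : DCo (insert e σ) (fi (in1 e)) (fi (in2 e)) := by
  obtain ⟨L, hL⟩ := exists_orb_nx σ (in1 e)
  obtain ⟨M, hM⟩ := exists_orb_nx σ (in2 e)
  have h1 : ¬ InOrb (nx σ) (in1 e) (in2 e) := fun h2 => h (loop_iff.1 h2).1
  have h2 := ((swapped_insert σ e he hn).merge hL hM ⟨0, rfl⟩ h1).2.1
  exact (loop_iff.1 h2).2

/-- a label which closes a cycle separates its faces -/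
lemma dual_b {σ : Finset (ℤ × ℤ)} {e : ℤ × ℤ} (he : (e.1 + e.2) % 2 = 1) (hn : e ∉ σ)
    (h : Co σ (vx (in1 e)) (vx (in2 e))) : ¬ DCo (insert e σ) (fi (in1 e)) (fi (in2 e)) := by
  intro hd
  obtain ⟨h1, h2⟩ := ends1 he
  have h3 : InOrb (nx (insert e σ)) (in1 e) (in2 e) :=
    loop_iff.2 ⟨h.mono (subset_insert _ _), hd⟩
  have h4 : InOrb (nx σ) (in1 e) (in2 e) := loop_iff.2 ⟨h, DCo.step h2.1 (by rw [h2.2]; exact hn)⟩
  obtain ⟨L, hL⟩ := exists_orb_nx σ (in1 e)
  obtain ⟨b, hb, hb'⟩ := (hL.inOrb_iff _).1 h4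
  have hb0 : 0 < b := by
    rcases Nat.eq_zero_or_pos b with rfl | h5
    · exact absurd hb' (in1_ne_in2 e)
    · exact h5
  obtain ⟨k1, k2, k3⟩ := (swapped_insert σ e he hn).split hL hb0 hb rfl hb'
  obtain ⟨i, hi, hi'⟩ := (k3.inOrb_iff _).1 h3
  rcases Nat.eq_zero_or_pos i with rfl | h5
  · exact absurd hi' (in1_ne_in2 e)
  · obtain ⟨j, rfl⟩ : ∃ j, i = 0 + 1 + j := ⟨i - 1, by omega⟩
    rw [k2 j (by omega)] at hi'
    exact hL.inj b (b + 1 + j) (by omega) (by omega) (hb'.trans hi'.symm)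

/-- a cluster without outer vertices -/
lemma co_inner {σ B : Finset (ℤ × ℤ)} {u y : ℤ × ℤ} (h : ∀ y, Co (σ ∩ B) u y → ¬ Ni B y)
    (hy : Co σ u y) : Co (σ ∩ B) u y := by
  induction hy with
  | refl => exact Co.refl _ _
  | @tail b c _ hbc ih =>
    refine ih.tail ⟨hbc.1, mem_inter.2 ⟨hbc.2, ?_⟩⟩
    by_contra h1
    exact h b ih ⟨c, hbc.1, h1⟩

/-- **One label**: if the insertion of `e` does not change the boundary partition of `B`, it does not
change the connections of outer vertices and outer faces. -/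
theorem one_label {B σ : Finset (ℤ × ℤ)} (hB : SC B) {e : ℤ × ℤ} (he : (e.1 + e.2) % 2 = 1)
    (heB : e ∈ B) (hn : e ∉ σ)
    (nc : ∀ x y, Ni B x → Ni B y → Co (insert e σ ∩ B) x y → Co (σ ∩ B) x y) :
    (∀ x y, Ni B x → Ni B y → (Co (insert e σ) x y ↔ Co σ x y)) ∧
      (∀ f g, NiF B f → NiF B g → (DCo (insert e σ) f g ↔ DCo σ f g)) := by
  obtain ⟨⟨e1, e2⟩, e3, e4⟩ := ends1 he
  have hins : insert e σ ∩ B = insert e (σ ∩ B) := by
    rw [insert_inter_of_mem heB]
  by_cases hc : Co (σ ∩ B) (vx (in1 e)) (vx (in2 e))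
  · -- the label closes a cycle
    have hc' : Co σ (vx (in1 e)) (vx (in2 e)) := hc.mono inter_subset_left
    refine ⟨fun x y _ _ => ⟨fun h => ?_, fun h => h.mono (subset_insert _ _)⟩,
      fun f g hf hg => ⟨fun h => h.anti (subset_insert _ _), fun h => ?_⟩⟩
    · rcases co_insert e1 e2 h with h1 | ⟨h1, h2⟩ | ⟨h1, h2⟩
      · exact h1
      · exact h1.trans (hc'.trans h2)
      · exact h1.trans (hc'.symm.trans h2)
    · have hsub : insert e (σ ∩ B) ⊆ insert e σ := insert_subset_insert _ inter_subset_left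
      have hsubB : insert e (σ ∩ B) ⊆ B := insert_subset heB inter_subset_right
      have hnb : ¬ DCo (insert e (σ ∩ B)) (fi (in1 e)) (fi (in2 e)) :=
        dual_b he (fun h1 => hn (mem_inter.1 h1).1) hc
      have hfg : DCo (insert e (σ ∩ B)) f g := (hB f g hf hg).anti hsubB
      rcases dco_insert e3 e4 h with h1 | ⟨h1, h2⟩ | ⟨h1, h2⟩
      · exact h1
      · exact absurd (((h1.anti hsub).symm.trans hfg).trans (h2.anti hsub).symm) hnb
      · exact absurd (((h2.anti hsub).trans hfg.symm).trans (h1.anti hsub)) hnb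
  · -- the label joins two clusters, one of them is inner
    have key : ∀ u v, ((u = vx (in1 e) ∧ v = vx (in2 e)) ∨ (u = vx (in2 e) ∧ v = vx (in1 e))) →
        (∀ y, Co (σ ∩ B) u y → ¬ Ni B y) → ¬ Co σ u v ∧ ∀ x, Ni B x → ¬ Co σ u x := by
      intro u v huv h
      refine ⟨fun h1 => ?_, fun x hx h1 => h x (co_inner h h1) hx⟩
      have h2 := co_inner h h1
      rcases huv with ⟨rfl, rfl⟩ | ⟨rfl, rfl⟩
      · exact hc h2
      · exact hc h2.symm
    have hex : (∀ y, Co (σ ∩ B) (vx (in1 e)) y → ¬ Ni B y) ∨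
        (∀ y, Co (σ ∩ B) (vx (in2 e)) y → ¬ Ni B y) := by
      by_contra hcon
      push Not at hcon
      obtain ⟨⟨x, h1, h2⟩, ⟨y, h3, h4⟩⟩ := hcon
      have hstep : Co (insert e (σ ∩ B)) (vx (in1 e)) (vx (in2 e)) :=
        Relation.ReflTransGen.single ⟨e1, by rw [e2]; exact mem_insert_self _ _⟩
      have h5 : Co (insert e σ ∩ B) x y := by
        rw [hins]
        exact (h1.symm.mono (subset_insert _ _)).trans (hstep.trans (h3.mono (subset_insert _ _)))
      exact hc (h1.trans ((nc x y h2 h4 h5).trans h3.symm))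
    have hprim : ¬ Co σ (vx (in1 e)) (vx (in2 e)) ∧
        ∀ x y, Ni B x → Ni B y → (Co (insert e σ) x y → Co σ x y) := by
      rcases hex with h | h
      · obtain ⟨h1, h2⟩ := key _ _ (Or.inl ⟨rfl, rfl⟩) h
        refine ⟨h1, fun x y hx hy h3 => ?_⟩
        rcases co_insert e1 e2 h3 with h4 | ⟨h4, h5⟩ | ⟨h4, h5⟩
        · exact h4
        · exact absurd h4.symm (h2 x hx)
        · exact absurd h5 (h2 y hy)
      · obtain ⟨h1, h2⟩ := key _ _ (Or.inr ⟨rfl, rfl⟩) h
        refine ⟨fun h3 => h1 h3.symm, fun x y hx hy h3 => ?_⟩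
        rcases co_insert e1 e2 h3 with h4 | ⟨h4, h5⟩ | ⟨h4, h5⟩
        · exact h4
        · exact absurd h5 (h2 y hy)
        · exact absurd h4.symm (h2 x hx)
    refine ⟨fun x y hx hy => ⟨hprim.2 x y hx hy, fun h => h.mono (subset_insert _ _)⟩,
      fun f g _ _ => ⟨fun h => h.anti (subset_insert _ _), fun h => ?_⟩⟩
    have hab := dual_a he hn hprim.1
    rcases dco_insert e3 e4 h with h1 | ⟨h1, h2⟩ | ⟨h1, h2⟩
    · exact h1
    · exact h1.trans (hab.trans h2)
    · exact h1.trans (hab.symm.trans h2)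

/-- vertex and face of a corner which touches a label outside `B` -/
lemma ni_corner {B : Finset (ℤ × ℤ)} {c : ℤ × ℤ} (h : lab c ∉ B ∨ plab c ∉ B) :
    Ni B (vx c) ∧ NiF B (fi c) := by
  have key : ∀ z : ℤ × ℤ, lab z ∉ B → Ni B (vx z) ∧ NiF B (fi z) := by
    intro z hz
    have h1 := vx_nxO z
    have h2 := fi_nxC z
    refine ⟨⟨vx (nxO z), h1.1, by rw [h1.2]; exact hz⟩, ⟨fi (nxC z), h2.1, ?_⟩⟩
    have e1 : fi z + fi (nxC z) - (1, 1) = lab z := by
      first
        | exact h2.2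
        | (rw [h2.2]; exact add_sub_cancel_right _ _)
    rw [e1]; exact hz
  rcases h with h | h
  · exact key c h
  · -- the previous corners in the open and in the closed state
    have hl : ∀ w, lab (pv w c) = plab c := fun w => lab_pv w c
    have hx : ∀ w, nx w (pv w c) = c := fun w => nx_pv w c
    constructor
    · -- open state: crosses the edge
      have a1 := hx {plab c}
      have a2 := hl {plab c}
      set z := pv {plab c} c with hz
      have a3 : nxO z = c := by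
        unfold nx at a1
        rwa [if_pos (by rw [a2]; exact mem_singleton_self _)] at a1
      have a4 := vx_nxO z
      rw [a3] at a4
      refine ⟨vx z, ?_, ?_⟩
      · have := isUnit4_neg a4.1
        rwa [neg_sub] at this
      · rw [add_comm, a4.2, a2]; exact h
    · have a1 := hx ∅
      have a2 := hl ∅
      set z := pv ∅ c with hz
      have a3 : nxC z = c := by
        unfold nx at a1
        rwa [if_neg (by exact notMem_empty _)] at a1
      have a4 := fi_nxC z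
      rw [a3] at a4
      refine ⟨fi z, ?_, ?_⟩
      · have := isUnit4_neg a4.1
        rwa [neg_sub] at this
      · have e1 : fi c + fi z - (1, 1) = lab z := by
          rw [add_comm (fi c)]
          first
            | exact a4.2
            | (rw [a4.2]; exact add_sub_cancel_right _ _)
        rw [e1, a2]; exact h

/-- the contents of `U` do not matter for outer connections -/
theorem outer_agree {B U ω : Finset (ℤ × ℤ)} (hB : SC B) (hU : U ⊆ B)
    (hodd : ∀ e ∈ U, (e.1 + e.2) % 2 = 1) (hA : ¬ A4 B U ω) {A : Finset (ℤ × ℤ)} (hAU : A ⊆ U) :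
    (∀ x y, Ni B x → Ni B y → (Co (ω \ U ∪ A) x y ↔ Co (ω \ U) x y)) ∧
      (∀ f g, NiF B f → NiF B g → (DCo (ω \ U ∪ A) f g ↔ DCo (ω \ U) f g)) := by
  classical
  induction A using Finset.induction_on with
  | empty => rw [union_empty]; exact ⟨fun _ _ _ _ => Iff.rfl, fun _ _ _ _ => Iff.rfl⟩
  | insert e A heA ih =>
    have hA' : A ⊆ U := (subset_insert _ _).trans hAU
    have heU : e ∈ U := hAU (mem_insert_self _ _)
    obtain ⟨i1, i2⟩ := ih hA'
    have hn : e ∉ ω \ U ∪ A := by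
      rw [mem_union, not_or, mem_sdiff]
      exact ⟨fun h => h.2 heU, heA⟩
    obtain ⟨j1, j2⟩ := one_label hB (hodd e heU) (hU heU) hn (by
      intro x y hx hy h
      by_contra hcon
      apply hA
      refine ⟨x, y, hx, hy, h.mono ?_, fun h1 => hcon (h1.mono ?_)⟩
      · intro l hl
        simp only [mem_inter, mem_insert, mem_union, mem_sdiff] at hl ⊢
        obtain ⟨h1 | ⟨h1, h2⟩ | h1, h3⟩ := hl
        · right; rw [h1]; exact heU
        · left; exact ⟨h1, h3⟩
        · right; exact hA' h1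
      · intro l hl
        simp only [mem_inter, mem_union, mem_sdiff] at hl ⊢
        exact ⟨Or.inl ⟨hl.1.1, hl.2⟩, hl.1.2⟩)
    have e1 : ω \ U ∪ insert e A = insert e (ω \ U ∪ A) := union_insert _ _ _
    rw [e1]
    exact ⟨fun x y hx hy => (j1 x y hx hy).trans (i1 x y hx hy),
      fun f g hf hg => (j2 f g hf hg).trans (i2 f g hf hg)⟩

/-- visits of the path in a plane environment -/
lemma on_plane {X : Env} {W : Finset (ℤ × ℤ)} (hX : PlaneEnv X W) {ω : Finset (ℤ × ℤ)}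
    (hω : ω ⊆ X.E) {c : ℤ × ℤ} :
    X.On ω c ↔ Co (ω ∪ W) (vx X.c0) (vx c) ∧ DCo (ω ∪ W) (fi X.c0) (fi c) := by
  rw [← loop_iff]
  have hO := hX.orb hω
  rw [hO.inOrb_iff]
  unfold Env.On
  constructor
  · rintro ⟨i, h1, h2⟩
    exact ⟨i, h1, by rw [← hX.zz ω hω]; exact h2⟩
  · rintro ⟨i, h1, h2⟩
    exact ⟨i, h1, by rw [hX.zz ω hω]; exact h2⟩

/-- **The strand lemma.** -/
theorem strand {X : Env} {W : Finset (ℤ × ℤ)} (hX : PlaneEnv X W) {B U : Finset (ℤ × ℤ)}
    (hB : SC B) (hU : U ⊆ B) (hBE : B ⊆ X.E) {ω : Finset (ℤ × ℤ)} (hω : ω ⊆ X.E)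
    (hA : ¬ A4 B U ω) {c : ℤ × ℤ} (hc : lab c ∉ B ∨ plab c ∉ B) :
    X.incO ω c = X.incO (ω \ U) c := by
  classical
  have hUE : U ⊆ X.E := hU.trans hBE
  have hWB : ∀ x ∈ W, x ∉ B := fun x hx hxB => disjoint_left.1 hX.disj (hBE hxB) hx
  have hodd : ∀ e ∈ U, (e.1 + e.2) % 2 = 1 := fun e he => X.odd e (hUE he)
  have hA' : ¬ A4 B U (ω ∪ W) := by
    rw [A4_congr (ω' := ω)]
    · exact hA
    · ext x
      simp only [mem_inter, mem_union]
      constructor
      · rintro ⟨h1 | h1, h2⟩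
        · exact ⟨h1, h2⟩
        · exact absurd h2 (hWB x h1)
      · rintro ⟨h1, h2⟩
        exact ⟨Or.inl h1, h2⟩
  have hroot : lab X.c0 ∉ B ∨ plab X.c0 ∉ B := Or.inr (fun h => Env.plab_root (hBE h))
  obtain ⟨n1, n2⟩ := ni_corner hc
  obtain ⟨m1, m2⟩ := ni_corner hroot
  -- all contents
  have hon : ∀ A, A ⊆ U → (X.On (ω \ U ∪ A) c ↔ X.On (ω \ U) c) := by
    intro A hAU
    have hs1 : ω \ U ∪ A ⊆ X.E := union_subset (sdiff_subset.trans hω) (hAU.trans hUE)
    have hs2 : ω \ U ⊆ X.E := sdiff_subset.trans hω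
    rw [on_plane hX hs1, on_plane hX hs2]
    obtain ⟨k1, k2⟩ := outer_agree hB hU hodd hA' hAU
    have e1 : (ω ∪ W) \ U = ω \ U ∪ W := by
      rw [union_sdiff_distrib]
      congr 1
      exact sdiff_eq_self_of_disjoint (disjoint_left.2 fun x hx hxU => hWB x hx (hU hxU))
    rw [e1] at k1 k2
    have e2 : ω \ U ∪ A ∪ W = ω \ U ∪ W ∪ A := by
      rw [union_assoc, union_comm A W, ← union_assoc]
    rw [e2, k1 _ _ m1 n1, k2 _ _ m2 n2]
  have e0 : ω = ω \ U ∪ ω ∩ U := (sdiff_union_inter _ _).symm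
  have h1 : X.On ω c ↔ X.On (ω \ U) c := by
    conv_lhs => rw [e0]
    exact hon _ inter_subset_right
  by_cases h2 : X.On ω c
  · have hK : X.SameK (ω \ U) ω c := by
      apply Env.sameK_between hω sdiff_subset
      intro η g1 g2
      have e3 : η = ω \ U ∪ η ∩ U := by
        ext x
        simp only [mem_union, mem_sdiff, mem_inter]
        constructor
        · intro hx
          by_cases hxU : x ∈ U
          · exact Or.inr ⟨hx, hxU⟩
          · exact Or.inl ⟨g2 hx, hxU⟩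
        · rintro (⟨h3, h4⟩ | ⟨h3, _⟩)
          · exact g1 (mem_sdiff.2 ⟨h3, h4⟩)
          · exact h3
      rw [e3, hon _ inter_subset_right]
      exact h1.1 h2
    obtain ⟨i, hi, hz⟩ := h2
    obtain ⟨j, hj, hz'⟩ := h1.1 ⟨i, hi, hz⟩
    rw [Env.incO_of hω hi hz, Env.incO_of (sdiff_subset.trans hω) hj hz', hK j i hj hi hz' hz]
  · have h3 : ¬ X.On (ω \ U) c := fun h4 => h2 (h1.2 h4)
    rw [Env.incO_zero (fun i hi hz => h2 ⟨i, hi, hz⟩), Env.incO_zero (fun i hi hz => h3 ⟨i, hi, hz⟩)]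

end Pool.Agent.H58.W
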