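import Mathlib
import Pool.Agent.H58.W.Strand
import Pool.Agent.H58.W.EB
import Pool.Agent.Q1.M6c.D1

set_option autoImplicit false
open Finset

/-! # Natural = plates for the primitive of the parafermion

`X` : a plane environment with the free box `BX p r`. `FZ X p r u v ω` : displacement of the primitive
from `u` to `v` when the labels outside the box are frozen in the state `ω`. `wg_abs` : a sequence of
coin models on the labels outside the box; the step `j` changes only the contents of `S j ⊆ B j`; then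
the expectations of `FZ` differ by at most `4 mm r` times the sum of the probabilities of
`A4 (B j) (S j)`. `EF_eq` : the expectation of `FZ` in the model with the blocks `b` on `P` and natural
labels elsewhere is the average of the displacements of the environments with frozen `P`. -/

namespace Pool.Agent.H58.W

open Pool.Agent.H75.Perc
open Pool.Agent.H75.TwoArm hiding BX
open Pool.Agent.H75.Four hiding A4
open Pool.Agent.H69.Q1 Pool.Agent.Q1 Pool.Agent.Q1.M6c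
open Pool.Agent.Q1.Env (InBx D_congr)
open Pool.Agent.H41.W

variable {β γ : Type*} [DecidableEq β] [DecidableEq γ]

/-- displacement of the primitive with the labels outside the box frozen -/
noncomputable def FZ (X : Env) (p : ℤ × ℤ) (r : ℕ) (u v : ℤ × ℤ) (ω : Finset (ℤ × ℤ)) : ℂ :=
  (X.freeze (BX p r) ω).D u v

lemma A4_sdiff' {B P ω : Finset (ℤ × ℤ)} : A4 B P (ω \ P) ↔ A4 B P ω := by
  unfold A4
  have e1 : (ω \ P) ∩ B ∪ P = ω ∩ B ∪ P := by
    ext x; simp only [mem_union, mem_inter, mem_sdiff]; tauto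
  have e2 : ((ω \ P) ∩ B) \ P = (ω ∩ B) \ P := by
    ext x; simp only [mem_inter, mem_sdiff]; tauto
  rw [e1, e2]

/-- the probability of `A4 B P` is that of the model in `B` -/
lemma PB_A4_box {E B P : Finset (ℤ × ℤ)} (hBE : B ⊆ E) (b : ℤ × ℤ → β) :
    PB (E \ P) b (A4 B P) = PB B b (A4 B P) := by
  have h1 : B \ P ⊆ E \ P := sdiff_subset_sdiff hBE le_rfl
  have k1 : PB (E \ P) b (A4 B P) = PB (E \ P) b (fun ω => A4 B P (ω ∩ (B \ P))) := by
    refine PB_congr fun ω _ => ?_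
    rw [← A4_sdiff' (ω := ω)]
    refine A4_congr ?_
    ext x; simp only [mem_inter, mem_sdiff]; tauto
  have k2 : PB B b (A4 B P) = PB B b (fun ω => A4 B P (ω ∩ (B \ P))) := by
    refine PB_congr fun ω _ => ?_
    rw [← A4_sdiff' (ω := ω)]
    refine A4_congr ?_
    ext x; simp only [mem_inter, mem_sdiff]; tauto
  rw [k1, k2, PB_restrict h1, PB_restrict (sdiff_subset : B \ P ⊆ B)]

/-- the displacement does not depend on contents without four arms -/
theorem FZ_strand {X : Env} (hX : PlaneK X) {p : ℤ × ℤ} {r : ℕ} {u v : ℤ × ℤ} (hu : InQ p r u)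
    (hv : InQ p r v) {B S : Finset (ℤ × ℤ)} (hB : SC B) (hS : S ⊆ B) (hBE : B ⊆ X.E \ BX p r)
    {ω : Finset (ℤ × ℤ)} (hω : ω ⊆ X.E \ BX p r) (hA : ¬ A4 B S (ω \ S)) :
    FZ X p r u v ω = FZ X p r u v (ω \ S) := by
  obtain ⟨W, hW⟩ := hX
  have hBE' : B ⊆ X.E := hBE.trans sdiff_subset
  have hd : ∀ x ∈ B, x ∉ BX p r := fun x hx => (mem_sdiff.1 (hBE hx)).2
  rw [A4_sdiff'] at hA
  have key : ∀ z, InBx (p.1 - r) (p.1 + r) (p.2 - r) (p.2 + r) z →
      (X.freeze (BX p r) ω).inc z = 1 * (X.freeze (BX p r) (ω \ S)).inc z := by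
    intro z hz
    have hz2 : lab z ∈ BX p r ∨ plab z ∈ BX p r := inBx_BX hz
    rw [one_mul, Env.inc_eq, Env.inc_eq]
    show Ec _ (X.E ∩ BX p r) _ = Ec _ (X.E ∩ BX p r) _
    refine Ec_congr fun ξ hξ => ?_
    rw [Env.freeze_incO hξ, Env.freeze_incO hξ]
    have i1 : ω ∩ (X.E \ BX p r) = ω := inter_eq_left.2 hω
    have i2 : (ω \ S) ∩ (X.E \ BX p r) = ω \ S := inter_eq_left.2 (sdiff_subset.trans hω)
    rw [i1, i2]
    have hξE : ξ ⊆ X.E := hξ.trans inter_subset_left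
    have hξB : ∀ x ∈ ξ, x ∉ B := fun x hx hxB => hd x hxB (mem_inter.1 (hξ hx)).2
    have hsub : ξ ∪ ω ⊆ X.E := union_subset hξE (hω.trans sdiff_subset)
    have hA' : ¬ A4 B S (ξ ∪ ω) := by
      rw [A4_congr (ω' := ω)]
      · exact hA
      · ext x
        simp only [mem_inter, mem_union]
        constructor
        · rintro ⟨h1 | h1, h2⟩
          · exact absurd h2 (hξB x h1)
          · exact ⟨h1, h2⟩
        · rintro ⟨h1, h2⟩
          exact ⟨Or.inr h1, h2⟩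
    have hc : lab z ∉ B ∨ plab z ∉ B := by
      rcases hz2 with h | h
      · exact Or.inl fun h1 => hd _ h1 h
      · exact Or.inr fun h1 => hd _ h1 h
    rw [strand hW hB hS hBE' hsub hA' hc]
    congr 1
    rw [union_sdiff_distrib]
    congr 1
    exact sdiff_eq_self_of_disjoint (disjoint_left.2 fun x hx hxS => hξB x hx (hS hxS))
  unfold FZ
  rw [D_congr key (inQ_inB hu) (inQ_inB hv), one_mul]

/-- the displacement is bounded -/
lemma FZ_norm {X : Env} (hX : PlaneK X) {p : ℤ × ℤ} {r : ℕ} (hF : Free X.E p r) {u v : ℤ × ℤ}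
    (hu : InQ p r u) (hv : InQ p r v) (ω : Finset (ℤ × ℤ)) : ‖FZ X p r u v ω‖ ≤ mm r := by
  refine le_mm (p := p) (planeK_freeze hX _ _) ?_ hu hv
  intro e he
  exact mem_inter.2 ⟨hF he, he⟩

/-- **Natural = plates for the primitive, abstract form.** -/
theorem wg_abs {X : Env} (hX : PlaneK X) {p : ℤ × ℤ} {r : ℕ} (hF : Free X.E p r) {u v : ℤ × ℤ}
    (hu : InQ p r u) (hv : InQ p r v) (b : ℕ → ℤ × ℤ → β) (S B : ℕ → Finset (ℤ × ℤ)) (n : ℕ)
    (hSC : ∀ j < n, SC (B j)) (hSB : ∀ j < n, S j ⊆ B j) (hBE : ∀ j < n, B j ⊆ X.E \ BX p r)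
    (h : ∀ j < n, ∀ l ∈ X.E, ∀ l' ∈ X.E, l ∉ S j → l' ∉ S j →
      (b j l = b j l' ↔ b (j + 1) l = b (j + 1) l')) :
    ‖EB (X.E \ BX p r) (b 0) (FZ X p r u v) - EB (X.E \ BX p r) (b n) (FZ X p r u v)‖ ≤
      4 * mm r * ∑ j ∈ range n, PB (B j) (b j) (A4 (B j) (S j)) := by
  have key := EB_telescope (E := X.E \ BX p r) b S n
    (fun j hj l hl l' hl' => by
      rw [mem_sdiff, mem_sdiff] at hl hl'
      exact h j hj l hl.1.1 l' hl'.1.1 hl.2 hl'.2)
    (F := FZ X p r u v) (K := mm r) (fun j => A4 (B j) (S j))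
    (fun ω _ => FZ_norm hX hF hu hv ω)
    (fun j hj ω hω hA => FZ_strand hX hu hv (hSC j hj) (hSB j hj) (hBE j hj) hω hA)
  refine key.trans (le_of_eq ?_)
  congr 1
  refine sum_congr rfl fun j hj => ?_
  exact PB_A4_box (hBE j (mem_range.1 hj)) (b j)

/-- natural labels: the expectation of `FZ` is the displacement of `X` -/
lemma EF_nat (X : Env) (p : ℤ × ℤ) (r : ℕ) (u v : ℤ × ℤ) {b : ℤ × ℤ → β}
    (hb : ∀ l ∈ X.E, ∀ l' ∈ X.E, b l = b l' → l = l') :
    EB (X.E \ BX p r) b (FZ X p r u v) = X.D u v := by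
  rw [EB_inj (fun l hl l' hl' => hb l (mem_sdiff.1 hl).1 l' (mem_sdiff.1 hl').1),
    X.D_freeze (BX p r) u v]
  rfl

lemma freeze_twice {X : Env} {E1 P ω1 ω2 : Finset (ℤ × ℤ)} (hP : P ⊆ X.E \ E1)
    (h1 : ω1 ⊆ P) (h2 : ω2 ⊆ (X.E \ E1) \ P) {c : ℤ × ℤ} :
    (X.freeze E1 (ω1 ∪ ω2)).inc c = ((X.freeze (X.E \ P) ω1).freeze E1 ω2).inc c := by
  rw [Env.inc_eq, Env.inc_eq]
  have hE : (X.freeze (X.E \ P) ω1).E = X.E \ P := by
    rw [Env.freeze_E]; exact inter_eq_right.2 sdiff_subset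
  have hE2 : (X.E \ P) ∩ E1 = X.E ∩ E1 := by
    ext x
    simp only [mem_inter, mem_sdiff]
    constructor
    · rintro ⟨⟨a1, _⟩, a3⟩; exact ⟨a1, a3⟩
    · rintro ⟨a1, a2⟩
      exact ⟨⟨a1, fun a3 => (mem_sdiff.1 (hP a3)).2 a2⟩, a2⟩
  have hEE : ((X.freeze (X.E \ P) ω1).freeze E1 ω2).E = (X.freeze E1 (ω1 ∪ ω2)).E := by
    rw [Env.freeze_E, hE, hE2, Env.freeze_E]
  rw [hEE]
  refine Ec_congr fun ξ hξ => ?_
  rw [Env.freeze_E] at hξ
  have hξ' : ξ ⊆ (X.freeze (X.E \ P) ω1).E ∩ E1 := by rw [hE, hE2]; exact hξ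
  rw [Env.freeze_incO hξ, Env.freeze_incO hξ']
  have hs : ξ ∪ ω2 ∩ ((X.freeze (X.E \ P) ω1).E \ E1) ⊆ X.E ∩ (X.E \ P) := by
    rw [hE]
    intro x hx
    rw [mem_inter, mem_sdiff]
    rcases mem_union.1 hx with h3 | h3
    · have h4 := mem_inter.1 (hξ h3)
      exact ⟨h4.1, h4.1, fun h5 => (mem_sdiff.1 (hP h5)).2 h4.2⟩
    · have h4 := mem_sdiff.1 (mem_sdiff.1 (mem_inter.1 h3).2).1
      exact ⟨h4.1, h4⟩
  rw [Env.freeze_incO hs]
  congr 1
  rw [hE]
  ext x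
  simp only [mem_union, mem_inter, mem_sdiff]
  constructor
  · rintro (a1 | ⟨a1 | a1, a2⟩)
    · exact Or.inl (Or.inl a1)
    · exact Or.inr ⟨a1, a2.1, fun a3 => a3.2 (h1 a1)⟩
    · have a3 := mem_sdiff.1 (h2 a1)
      exact Or.inl (Or.inr ⟨a1, ⟨a2.1, a3.2⟩, a2.2⟩)
  · rintro ((a1 | ⟨a1, a2⟩) | ⟨a1, a2⟩)
    · exact Or.inl a1
    · exact Or.inr ⟨Or.inr a1, a2.1.1, a2.2⟩
    · have a3 := mem_sdiff.1 (hP (h1 a1))
      exact Or.inr ⟨Or.inl a1, a3⟩

/-- **Average over the colours of the plates**: `P` = labels of the plates. -/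
theorem EF_eq {X : Env} {p : ℤ × ℤ} {r : ℕ} {u v : ℤ × ℤ} (hu : InQ p r u)
    (hv : InQ p r v) {P : Finset (ℤ × ℤ)} (hP : P ⊆ X.E \ BX p r) {b : ℤ × ℤ → β}
    (hs : Sep b P ((X.E \ BX p r) \ P))
    (hb : ∀ l ∈ (X.E \ BX p r) \ P, ∀ l' ∈ (X.E \ BX p r) \ P, b l = b l' → l = l') :
    EB (X.E \ BX p r) b (FZ X p r u v) =
      EB P b (fun ω => (X.freeze (X.E \ P) ω).D u v) := by
  rw [EB_split hP hs]
  refine EB_congr fun ω1 h1 => ?_
  rw [EB_inj hb, (X.freeze (X.E \ P) ω1).D_freeze (BX p r) u v]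
  have hE : (X.freeze (X.E \ P) ω1).E \ BX p r = (X.E \ BX p r) \ P := by
    rw [Env.freeze_E, inter_eq_right.2 sdiff_subset, sdiff_right_comm]
  rw [hE]
  refine Ec_congr fun ω2 h2 => ?_
  unfold FZ
  rw [D_congr (ζ := 1) (X := (X.freeze (X.E \ P) ω1).freeze (BX p r) ω2)
    (fun z _ => by rw [one_mul]; exact freeze_twice hP h1 h2) (inQ_inB hu) (inQ_inB hv), one_mul]

end Pool.Agent.H58.W
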