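import Mathlib
import Pool.Agent.H58.W.Strand
import Pool.Agent.H6.W.JDef
import Pool.Agent.H50.W.Near

set_option autoImplicit false
open Finset

/-! # The outer faces of a rectangle of the tile frame are joined off the rectangle -/

namespace Pool.Agent.H58.W

open Pool.Agent.H75.Perc hiding WL CT hh PB
open Pool.Agent.H75.TwoArm Pool.Agent.Q1
open Pool.Agent.Q1.M4 (Cell)
open Pool.Agent.H33.Q1
open Pool.Agent.H6.W

/-- a rectangle of tiles -/
def TRect (w : Finset (ℤ × ℤ)) (a b c d : ℤ) : Prop :=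
  ∀ p : ℤ × ℤ, lt p ∈ w ↔ (a ≤ p.1 ∧ p.1 < b) ∧ (c ≤ p.2 ∧ p.2 < d)

section
variable {w : Finset (ℤ × ℤ)} {a b c d : ℤ}

lemma tf_add (f : ℤ × ℤ) (x y : ℤ) : tf (f + (x, y)) = ((tf f).1 + (x + y), (tf f).2 + (y - x)) := by
  unfold tf; refine Prod.ext ?_ ?_ <;> simp <;> ring

lemma walk_up (h : TRect w a b c d) (f : ℤ × ℤ) (hf : b ≤ (tf f).1 ∨ d ≤ (tf f).2) (k : ℕ) :
    DCo w f (f + (0, (k : ℤ))) := by
  induction k with
  | zero =>
    have : f + (0, ((0 : ℕ) : ℤ)) = f := by refine Prod.ext ?_ ?_ <;> simp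
    rw [this]; exact DCo.refl _ _
  | succ k ih =>
    refine ih.trans ?_
    have h2 := dco_up (w := w) (f := f + (0, (k : ℤ))) (by
      rw [h, tf_add]; simp only; omega)
    have e : f + (0, ((k + 1 : ℕ) : ℤ)) = f + (0, (k : ℤ)) + (0, 1) := by
      refine Prod.ext ?_ ?_ <;> simp; ring
    rw [e]; exact h2

lemma walk_right (h : TRect w a b c d) (f : ℤ × ℤ) (hf : b ≤ (tf f).1 ∨ (tf f).2 ≤ c) (k : ℕ) :
    DCo w f (f + ((k : ℤ), 0)) := by
  induction k with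
  | zero =>
    have : f + (((0 : ℕ) : ℤ), 0) = f := by refine Prod.ext ?_ ?_ <;> simp
    rw [this]; exact DCo.refl _ _
  | succ k ih =>
    refine ih.trans ?_
    have h2 := dco_right (w := w) (f := f + ((k : ℤ), 0)) (by
      rw [h, tf_add]; simp only [Prod.fst_sub, Prod.snd_sub]; omega)
    have e : f + (((k + 1 : ℕ) : ℤ), 0) = f + ((k : ℤ), 0) + (1, 0) := by
      refine Prod.ext ?_ ?_ <;> simp; ring
    rw [e]; exact h2

lemma walk_left (h : TRect w a b c d) (f : ℤ × ℤ) (hf : (tf f).1 ≤ a) (k : ℕ) :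
    DCo w f (f + (-(k : ℤ), 0)) := by
  induction k with
  | zero =>
    have : f + (-((0 : ℕ) : ℤ), 0) = f := by refine Prod.ext ?_ ?_ <;> simp
    rw [this]; exact DCo.refl _ _
  | succ k ih =>
    refine ih.trans ?_
    have h2 := dco_left (w := w) (f := f + (-(k : ℤ), 0)) (by
      rw [h, tf_add]; simp only [Prod.fst_sub, Prod.snd_sub]; omega)
    have e : f + (-((k + 1 : ℕ) : ℤ), 0) = f + (-(k : ℤ), 0) - (1, 0) := by
      refine Prod.ext ?_ ?_ <;> simp; ring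
    rw [e]; exact h2

/-- all faces to the right of the rectangle are joined -/
lemma right_conn (h : TRect w a b c d) (f g : ℤ × ℤ) (hf : b ≤ (tf f).1) (hg : b ≤ (tf g).1) :
    DCo w f g := by
  have key : ∀ f : ℤ × ℤ, b ≤ (tf f).1 → ∀ F : ℤ × ℤ, f.1 ≤ F.1 → f.2 ≤ F.2 → DCo w f F := by
    intro f hf F h1 h2
    obtain ⟨k, hk⟩ := Int.le.dest h1
    obtain ⟨l, hl⟩ := Int.le.dest h2
    have s1 := walk_right h f (Or.inl hf) k
    have s2 := walk_up h (f + ((k : ℤ), 0)) (Or.inl (by rw [tf_add]; simp only; omega)) l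
    have e : F = f + ((k : ℤ), 0) + (0, (l : ℤ)) := by
      refine Prod.ext ?_ ?_ <;> simp <;> omega
    rw [e]; exact s1.trans s2
  exact (key f hf (max f.1 g.1, max f.2 g.2) (le_max_left _ _) (le_max_left _ _)).trans
    (key g hg (max f.1 g.1, max f.2 g.2) (le_max_right _ _) (le_max_right _ _)).symm

/-- an outer face is joined to the right side -/
lemma to_right (h : TRect w a b c d) (f : ℤ × ℤ) (hf : NiF w f) :
    ∃ g, b ≤ (tf g).1 ∧ DCo w f g := by
  -- from above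
  have up : ∀ f : ℤ × ℤ, (b ≤ (tf f).1 ∨ d ≤ (tf f).2) → ∃ g, b ≤ (tf g).1 ∧ DCo w f g := by
    intro f hf
    refine ⟨f + (0, (((b - (tf f).1).toNat : ℕ) : ℤ)), ?_, walk_up h f hf _⟩
    rw [tf_add]; simp only; omega
  have rt : ∀ f : ℤ × ℤ, (tf f).2 ≤ c → ∃ g, b ≤ (tf g).1 ∧ DCo w f g := by
    intro f hf
    refine ⟨f + ((((b - (tf f).1).toNat : ℕ) : ℤ), 0), ?_, walk_right h f (Or.inr hf) _⟩
    rw [tf_add]; simp only; omega
  have lf : ∀ f : ℤ × ℤ, (tf f).1 ≤ a → ∃ g, b ≤ (tf g).1 ∧ DCo w f g := by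
    intro f hf
    have s1 := walk_left h f hf (d - (tf f).2).toNat
    obtain ⟨g, h1, h2⟩ := up (f + (-(((d - (tf f).2).toNat : ℕ) : ℤ), 0)) (Or.inr (by
      rw [tf_add]; simp only; omega))
    exact ⟨g, h1, s1.trans h2⟩
  obtain ⟨g, hu, hl⟩ := hf
  -- the free tile
  have hq : ∃ q : ℤ × ℤ, lt q = f + g - (1, 1) ∧ ((tf f).1 - 1 ≤ q.1 ∧ q.1 ≤ (tf f).1) ∧
      ((tf f).2 - 1 ≤ q.2 ∧ q.2 ≤ (tf f).2) := by
    obtain ⟨f1, f2⟩ := f
    obtain ⟨g1, g2⟩ := g
    unfold IsUnit4 at hu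
    simp only [Prod.ext_iff, Prod.fst_sub, Prod.snd_sub] at hu
    refine ⟨tt ((f1, f2) + (g1, g2) - (1, 1)), ?_, ?_⟩
    · refine lt_tt ?_
      simp only [Prod.fst_sub, Prod.snd_sub, Prod.fst_add, Prod.snd_add]
      omega
    · unfold tt tf
      simp only [Prod.fst_sub, Prod.snd_sub, Prod.fst_add, Prod.snd_add]
      omega
  obtain ⟨q, hq1, hq2, hq3⟩ := hq
  rw [← hq1, h] at hl
  by_cases c1 : b ≤ (tf f).1 ∨ d ≤ (tf f).2
  · exact up f c1
  · push Not at c1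
    by_cases c2 : (tf f).1 ≤ a
    · exact lf f c2
    · by_cases c3 : (tf f).2 ≤ c
      · exact rt f c3
      · exfalso; apply hl; omega

theorem sc_trect (h : TRect w a b c d) : SC w := by
  intro f g hf hg
  obtain ⟨f', h1, h2⟩ := to_right h f hf
  obtain ⟨g', h3, h4⟩ := to_right h g hg
  exact h2.trans ((right_conn h f' g' h1 h3).trans h4.symm)

end

lemma trect_TL {n : ℤ} (hn : 0 < n) (a b c d : ℤ) :
    TRect (TL (RC a b c d) n) (a * n) (b * n) (c * n) (d * n) := by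
  intro p
  rw [mem_TL hn]
  rw [tt_lt, Pool.Agent.H50.W.Chd.mem_RC]
  unfold ct
  simp only [lt_odd, true_and]
  rw [Int.le_ediv_iff_mul_le hn, Int.ediv_lt_iff_lt_mul hn, Int.le_ediv_iff_mul_le hn,
    Int.ediv_lt_iff_lt_mul hn]

/-- **Outer faces of a rectangle of cells.** -/
theorem sc_TL {n : ℤ} (hn : 0 < n) (a b c d : ℤ) : SC (TL (RC a b c d) n) := sc_trect (trect_TL hn a b c d)

/-- translates of sets with joined outer faces -/
theorem SC.tr {B : Finset (ℤ × ℤ)} (h : SC B) (t : ℤ × ℤ) {B' : Finset (ℤ × ℤ)}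
    (hB : ∀ l : ℤ × ℤ, l ∈ B' ↔ l - (2 * t.1, 2 * t.2) ∈ B) : SC B' := by
  have hco : ∀ f g : ℤ × ℤ, DCo B f g → DCo B' (f + t) (g + t) := by
    rintro f g ⟨F, hF⟩
    induction hF with
    | refl => exact DCo.refl _ _
    | @tail x y _ hxy ih =>
      obtain ⟨h1, -, h2⟩ := ad_du hxy
      refine ih.trans (DCo.step ?_ ?_)
      · rw [add_sub_add_right_eq_sub]; exact h1
      · rw [hB]
        have e : x + t + (y + t) - (1, 1) - (2 * t.1, 2 * t.2) = x + y - (1, 1) := by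
          refine Prod.ext ?_ ?_ <;> simp <;> ring
        rw [e]; exact h2
  have hni : ∀ f : ℤ × ℤ, NiF B' f → NiF B (f - t) := by
    rintro f ⟨g, h1, h2⟩
    refine ⟨g - t, ?_, ?_⟩
    · rw [sub_sub_sub_cancel_right]; exact h1
    · rw [hB] at h2
      have e : f - t + (g - t) - (1, 1) = f + g - (1, 1) - (2 * t.1, 2 * t.2) := by
        refine Prod.ext ?_ ?_ <;> simp <;> ring
      rw [e]; exact h2
  intro f g hf hg
  have := hco _ _ (h _ _ (hni f hf) (hni g hg))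
  rwa [sub_add_cancel, sub_add_cancel] at this

end Pool.Agent.H58.W
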